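import Mathlib

/-!
# Project EG (MP_a3214d): the constants of a geometrically irreducible extension
-/

set_option autoImplicit false

namespace Pool.Agent.H20.EG

open Polynomial

theorem cst_mem_range {k : Type} [Field k] {E : Type} [Field E]
    [Algebra (RatFunc k) E] [FiniteDimensional (RatFunc k) E] (y : E) (Φ : k[X][X])
    (hΦm : Φ.Monic) (hΦd : Φ.natDegree = Module.finrank (RatFunc k) E)
    (hy : eval₂ ((algebraMap (RatFunc k) E).comp (algebraMap k[X] (RatFunc k))) y Φ = 0)
    (hgeom : ∀ (F : Type) [Field F] (ψ' : k →+* F), ∀ U V : F[X][X], U.Monic → V.Monic →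
        Φ.map (mapRingHom ψ') = U * V → U = 1 ∨ V = 1)
    [Algebra k E] [IsScalarTower k (RatFunc k) E] (θ : E) (hθ : IsAlgebraic k θ) :
    θ ∈ (algebraMap (RatFunc k) E).range := by
  classical
  by_contra hθr
  set N := Module.finrank (RatFunc k) E with hN
  have hN0 : 0 < N := Module.finrank_pos
  let F := IntermediateField.adjoin k {θ}
  have hFalg : Algebra.IsAlgebraic k F := IntermediateField.isAlgebraic_adjoin_simple hθ.isIntegral
  set xE : E := algebraMap (RatFunc k) E RatFunc.X with hxE
  have hinjE : Function.Injective (algebraMap (RatFunc k) E) := (algebraMap (RatFunc k) E).injective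
  have hxk : Transcendental k xE := by
    intro h
    obtain ⟨p, hp, hp0⟩ := h
    apply hp
    have h1 : algebraMap (RatFunc k) E (algebraMap k[X] (RatFunc k) p) = aeval xE p := by
      rw [hxE, aeval_algebraMap_apply]
      congr 1
      rw [← RatFunc.algebraMap_X, aeval_algebraMap_apply, aeval_X_left_apply]
    rw [← h1, map_eq_zero_iff _ hinjE, map_eq_zero_iff _ (RatFunc.algebraMap_injective k)] at hp0
    exact hp0
  have hxF : Transcendental F xE := fun h => hxk (h.restrictScalars k)
  let aFX : Algebra F[X] E := (aeval xE : F[X] →ₐ[F] E).toRingHom.toAlgebra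
  have hmapF : ∀ p : F[X], algebraMap F[X] E p = aeval xE p := fun p => rfl
  have hinjF : Function.Injective (algebraMap F[X] E) := transcendental_iff_injective.1 hxF
  have htf : Module.IsTorsionFree F[X] E := Module.isTorsionFree_iff_algebraMap_injective.2 hinjF
  let ψ' : k →+* F := algebraMap k F
  have hcomp : ∀ p : k[X], algebraMap F[X] E (p.map ψ') =
      algebraMap (RatFunc k) E (algebraMap k[X] (RatFunc k) p) := by
    intro p
    rw [hmapF, aeval_map_algebraMap, hxE, aeval_algebraMap_apply]
    congr 1
    rw [← RatFunc.algebraMap_X, aeval_algebraMap_apply, aeval_X_left_apply]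
  have hcomp' : (algebraMap F[X] E).comp (mapRingHom ψ') =
      (algebraMap (RatFunc k) E).comp (algebraMap k[X] (RatFunc k)) := RingHom.ext hcomp
  have hΦF : aeval y (Φ.map (mapRingHom ψ')) = 0 := by
    rw [aeval_def, eval₂_map, hcomp', hy]
  have hint : IsIntegral F[X] y := ⟨Φ.map (mapRingHom ψ'), hΦm.map _, by
    rw [← aeval_def]; exact hΦF⟩
  obtain ⟨V, hV⟩ := minpoly.isIntegrallyClosed_dvd hint hΦF
  have hUm : (minpoly F[X] y).Monic := minpoly.monic hint
  have hVm : V.Monic := by
    have h1 : (Φ.map (mapRingHom ψ')).Monic := hΦm.map _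
    rw [hV] at h1
    exact hUm.of_mul_monic_left h1
  have hdeg : (minpoly F[X] y).natDegree = N := by
    rcases hgeom F ψ' _ V hUm hVm hV with h | h
    · exact absurd h (minpoly.ne_one F[X] y)
    · rw [h, mul_one] at hV
      rw [← hV, hΦm.natDegree_map, hΦd]
  -- a linear dependence
  let v : Fin 2 × Fin N → E := fun p => (if p.1 = 0 then 1 else θ) * y ^ (p.2 : ℕ)
  have hdep : ¬ LinearIndependent (RatFunc k) v := by
    intro h
    have h1 := h.fintype_card_le_finrank
    rw [Fintype.card_prod, Fintype.card_fin, Fintype.card_fin] at h1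
    omega
  rw [Fintype.not_linearIndependent_iff] at hdep
  obtain ⟨g, hg, ⟨i, hi⟩⟩ := hdep
  obtain ⟨b, hb⟩ := IsLocalization.exist_integer_multiples_of_finite (nonZeroDivisors k[X]) g
  choose p hp using hb
  have hb0 : algebraMap k[X] (RatFunc k) (b : k[X]) ≠ 0 := by
    rw [Ne, map_eq_zero_iff _ (RatFunc.algebraMap_injective k)]
    exact nonZeroDivisors.coe_ne_zero b
  have hsum : ∑ q, algebraMap (RatFunc k) E (algebraMap k[X] (RatFunc k) (p q)) * v q = 0 := by
    have h1 : ∀ q, algebraMap (RatFunc k) E (algebraMap k[X] (RatFunc k) (p q)) * v q =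
        algebraMap (RatFunc k) E (algebraMap k[X] (RatFunc k) (b : k[X])) * (g q • v q) := by
      intro q
      rw [hp q, Algebra.smul_def, Algebra.smul_def, map_mul, mul_assoc]
    simp only [h1]
    rw [← Finset.mul_sum, hg, mul_zero]
  have hpi : p i ≠ 0 := by
    intro h0
    have h1 := hp i
    rw [h0, map_zero, Algebra.smul_def] at h1
    rcases mul_eq_zero.1 h1.symm with h2 | h2
    · exact hb0 h2
    · exact hi h2
  let θF : F := ⟨θ, IntermediateField.mem_adjoin_simple_self k θ⟩
  let P : F[X][X] := ∑ j : Fin N, C ((p (0, j)).map ψ' + C θF * (p (1, j)).map ψ') * X ^ (j : ℕ)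
  have hPcoef : ∀ j : Fin N, P.coeff j = (p (0, j)).map ψ' + C θF * (p (1, j)).map ψ' := by
    intro j
    simp only [P, finsetSum_coeff, coeff_C_mul, coeff_X_pow]
    rw [Finset.sum_eq_single j]
    · rw [if_pos rfl, mul_one]
    · intro j' _ hj'
      rw [if_neg (fun h => hj' (Fin.ext h.symm)), mul_zero]
    · intro h; exact absurd (Finset.mem_univ j) h
  have hPd : P.natDegree < N := by
    have h1 : P.natDegree ≤ N - 1 := by
      refine natDegree_sum_le_of_forall_le _ _ fun j _ => ?_
      refine (natDegree_C_mul_le _ _).trans ?_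
      rw [natDegree_X_pow]
      have := j.2
      omega
    omega
  have hPy : aeval y P = 0 := by
    have h1 : aeval y P = ∑ j : Fin N, (algebraMap (RatFunc k) E (algebraMap k[X] (RatFunc k)
        (p (0, j))) * v (0, j) + algebraMap (RatFunc k) E (algebraMap k[X] (RatFunc k)
        (p (1, j))) * v (1, j)) := by
      simp only [P, map_sum, map_mul, aeval_C, map_pow, aeval_X]
      apply Finset.sum_congr rfl
      intro j _
      rw [map_add, map_mul, hcomp, hcomp]
      have h2 : algebraMap F[X] E (C θF) = θ := by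
        rw [hmapF, aeval_C]
        rfl
      rw [h2]
      have hv0 : v (0, j) = y ^ (j : ℕ) := by simp [v]
      have hv1 : v (1, j) = θ * y ^ (j : ℕ) := by simp [v]
      rw [hv0, hv1]
      ring
    rw [h1, Finset.sum_add_distrib, ← hsum, Fintype.sum_prod_type, Fin.sum_univ_two]
  have hP0 : P = 0 := by
    by_contra hne
    have h1 := minpoly.IsIntegrallyClosed.degree_le_of_ne_zero hne hPy
    have h2 := natDegree_le_natDegree h1
    omega
  have hzero : ∀ j : Fin N, ∀ l, ψ' ((p (0, j)).coeff l) + θF * ψ' ((p (1, j)).coeff l) = 0 := by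
    intro j l
    have h1 := hPcoef j
    rw [hP0, coeff_zero] at h1
    have h2 := congrArg (fun q => q.coeff l) h1
    simp only [coeff_zero, coeff_add, coeff_map, coeff_C_mul] at h2
    exact h2.symm
  have hone : ∀ j : Fin N, ∀ l, (p (1, j)).coeff l = 0 := by
    intro j l
    by_contra hne
    apply hθr
    have h1 := congrArg (algebraMap F E) (hzero j l)
    rw [map_add, map_mul, map_zero] at h1
    have h2 : algebraMap F E θF = θ := rfl
    have h3 : ∀ a : k, algebraMap F E (ψ' a) = algebraMap (RatFunc k) E (algebraMap k (RatFunc k) a) := by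
      intro a
      rw [← IsScalarTower.algebraMap_apply k (RatFunc k) E]
      rfl
    rw [h2, h3, h3] at h1
    refine ⟨-(algebraMap k (RatFunc k) ((p (0, j)).coeff l)) /
      algebraMap k (RatFunc k) ((p (1, j)).coeff l), ?_⟩
    have h4 : algebraMap (RatFunc k) E (algebraMap k (RatFunc k) ((p (1, j)).coeff l)) ≠ 0 := by
      rw [Ne, map_eq_zero, map_eq_zero]
      exact hne
    rw [map_div₀, map_neg, div_eq_iff h4]
    linear_combination -h1
  have hall : ∀ q, p q = 0 := by
    rintro ⟨e, j⟩
    have h1 : p (1, j) = 0 := by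
      ext l
      rw [hone, coeff_zero]
    have h0 : p (0, j) = 0 := by
      ext l
      have h2 := hzero j l
      rw [hone, map_zero, mul_zero, add_zero, map_eq_zero] at h2
      rw [h2, coeff_zero]
    fin_cases e
    · exact h0
    · exact h1
  exact hpi (hall i)

end Pool.Agent.H20.EG
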