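import Mathlib

/-!
# Project EG (MP_a3214d): functions on the special fibre
-/

set_option autoImplicit false
set_option linter.unusedSectionVars false

namespace Pool.Agent.H20.EG

open Polynomial

section orb

variable {k : Type*} [Field k] {Ω : Type*} [Fintype Ω]

/-- the number of orbits of a permutation -/
noncomputable def orb (γ : Equiv.Perm Ω) : ℕ :=
  Nat.card (MulAction.orbitRel.Quotient (Subgroup.zpowers γ) Ω)

variable (k) in
/-- `φ ↦ φ ∘ γ - φ` -/
def dl (γ : Equiv.Perm Ω) : (Ω → k) →ₗ[k] (Ω → k) where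
  toFun φ := fun ω => φ (γ ω) - φ ω
  map_add' φ ψ := by
    funext ω
    simp only [Pi.add_apply]
    ring
  map_smul' a φ := by
    funext ω
    simp only [Pi.smul_apply, smul_eq_mul, RingHom.id_apply]
    ring

theorem finrank_range_dl (γ : Equiv.Perm Ω) :
    Module.finrank k (LinearMap.range (dl k γ)) + orb γ ≤ Fintype.card Ω := by
  classical
  have h1 := LinearMap.finrank_range_add_finrank_ker (dl k γ)
  rw [Module.finrank_fintype_fun_eq_card] at h1
  let Q := MulAction.orbitRel.Quotient (Subgroup.zpowers γ) Ω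
  have hfin : Finite Q := Quotient.finite _
  have := Fintype.ofFinite Q
  let mk : Ω → Q := fun ω => Quotient.mk _ ω
  let P : (Q → k) →ₗ[k] (Ω → k) :=
    { toFun := fun ψ ω => ψ (mk ω)
      map_add' := fun _ _ => rfl
      map_smul' := fun _ _ => rfl }
  have hPinj : Function.Injective P := by
    intro ψ ψ' h
    funext q
    obtain ⟨ω, rfl⟩ := Quotient.exists_rep q
    exact congrFun h ω
  have hmk : ∀ ω, mk (γ ω) = mk ω := by
    intro ω
    apply Quotient.sound
    show (MulAction.orbitRel (Subgroup.zpowers γ) Ω) (γ ω) ω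
    rw [MulAction.orbitRel_apply]
    exact ⟨⟨γ, Subgroup.mem_zpowers γ⟩, rfl⟩
  have hrange : LinearMap.range P ≤ LinearMap.ker (dl k γ) := by
    rintro _ ⟨ψ, rfl⟩
    rw [LinearMap.mem_ker]
    funext ω
    show ψ (mk (γ ω)) - ψ (mk ω) = 0
    rw [hmk, sub_self]
  have h2 : Module.finrank k (LinearMap.range P) ≤ Module.finrank k (LinearMap.ker (dl k γ)) :=
    Submodule.finrank_mono hrange
  rw [LinearMap.finrank_range_of_inj hPinj, Module.finrank_fintype_fun_eq_card,
    ← Nat.card_eq_fintype_card] at h2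
  have h3 : orb γ = Nat.card Q := rfl
  omega

end orb

section special

variable {k : Type*} [Field k] {Ω : Type*} [Fintype Ω] {I : Type*} [Fintype I]

variable (k) in
/-- the polynomial with given coefficients -/
noncomputable def tp (d : ℕ) : (Fin (d + 1) → k) →ₗ[k] k[X] :=
  (degreeLT k (d + 1)).subtype.comp (degreeLTEquiv k (d + 1)).symm.toLinearMap

theorem tp_injective (d : ℕ) : Function.Injective (tp k d) := by
  intro a b h
  exact (degreeLTEquiv k (d + 1)).symm.injective (Subtype.ext h)

theorem tp_natDegree (d : ℕ) (a : Fin (d + 1) → k) : (tp k d a).natDegree ≤ d := by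
  have h1 : tp k d a ∈ degreeLT k (d + 1) := ((degreeLTEquiv k (d + 1)).symm a).2
  rw [mem_degreeLT] at h1
  by_cases h0 : tp k d a = 0
  · rw [h0, natDegree_zero]
    exact Nat.zero_le _
  · rw [degree_eq_natDegree h0] at h1
    have h2 : (tp k d a).natDegree < d + 1 := by exact_mod_cast h1
    omega

/-- values at `x` -/
noncomputable def evl (Ω : Type*) (x : k) (d : ℕ) : (Ω → Fin (d + 1) → k) →ₗ[k] (Ω → k) :=
  LinearMap.pi fun ω => (Polynomial.leval x).comp ((tp k d).comp (LinearMap.proj ω))

theorem evl_apply (x : k) (d : ℕ) (h : Ω → Fin (d + 1) → k) (ω : Ω) :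
    evl Ω x d h ω = (tp k d (h ω)).eval x := rfl

/-- the conditions at the points `c i` -/
noncomputable def TT (c : I → k) (γ : I → Equiv.Perm Ω) (d : ℕ) :
    (Ω → Fin (d + 1) → k) →ₗ[k] (∀ i, LinearMap.range (dl k (γ i))) :=
  LinearMap.pi fun i => (dl k (γ i)).rangeRestrict.comp (evl Ω (c i) d)

theorem TT_apply (c : I → k) (γ : I → Equiv.Perm Ω) (d : ℕ) (h : Ω → Fin (d + 1) → k) (i : I)
    (ω : Ω) : (TT c γ d h i : Ω → k) ω =
      (tp k d (h (γ i ω))).eval (c i) - (tp k d (h ω)).eval (c i) := rfl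

/-- the inclusion in polynomial valued functions -/
noncomputable def incl (k : Type*) [Field k] (Ω : Type*) (d : ℕ) :
    (Ω → Fin (d + 1) → k) →ₗ[k] (Ω → k[X]) :=
  LinearMap.pi fun ω => (tp k d).comp (LinearMap.proj ω)

theorem incl_apply (d : ℕ) (h : Ω → Fin (d + 1) → k) (ω : Ω) : incl k Ω d h ω = tp k d (h ω) := rfl

theorem incl_injective (d : ℕ) : Function.Injective (incl k Ω d) := by
  intro h h' hh
  funext ω
  exact tp_injective d (congrFun hh ω)

theorem finrank_range_TT (c : I → k) (γ : I → Equiv.Perm Ω) (d : ℕ) :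
    Module.finrank k (LinearMap.range (TT c γ d)) ≤ ∑ i, (Fintype.card Ω - orb (γ i)) := by
  refine (Submodule.finrank_le _).trans ?_
  rw [Module.finrank_pi_fintype]
  refine Finset.sum_le_sum fun i _ => ?_
  have := finrank_range_dl (k := k) (γ i)
  omega

/-- the space of functions on the special fibre -/
theorem exists_special (c : I → k) (γ : I → Equiv.Perm Ω) (d : ℕ) :
    ∃ (D : ℕ) (b : Fin D → Ω → k[X]),
      Fintype.card Ω * (d + 1) ≤ D + ∑ i, (Fintype.card Ω - orb (γ i)) ∧
      LinearIndependent k b ∧ (∀ s ω, (b s ω).natDegree ≤ d) ∧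
      ∀ s i ω, (b s (γ i ω)).eval (c i) = (b s ω).eval (c i) := by
  have hV : Module.finrank k (Ω → Fin (d + 1) → k) = Fintype.card Ω * (d + 1) := by
    rw [Module.finrank_pi_fintype]
    simp only [Module.finrank_fintype_fun_eq_card, Fintype.card_fin]
    rw [Finset.sum_const, Finset.card_univ, smul_eq_mul]
  have hker := LinearMap.finrank_range_add_finrank_ker (TT c γ d)
  have hle := finrank_range_TT c γ d
  have B := Module.finBasis k (LinearMap.ker (TT c γ d))
  refine ⟨Module.finrank k (LinearMap.ker (TT c γ d)), fun s => incl k Ω d (B s).1, ?_, ?_, ?_, ?_⟩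
  · omega
  · have h1 : LinearIndependent k (fun s => (B s).1) :=
      B.linearIndependent.map' (LinearMap.ker (TT c γ d)).subtype (Submodule.ker_subtype _)
    exact h1.map' (incl k Ω d) (LinearMap.ker_eq_bot.2 (incl_injective d))
  · intro s ω
    exact tp_natDegree d _
  · intro s i ω
    have h1 : TT c γ d (B s).1 = 0 := (B s).2
    have h4 : (TT c γ d (B s).1 i : Ω → k) ω = 0 := by
      rw [h1]
      rfl
    rw [TT_apply, sub_eq_zero] at h4
    exact h4

end special

end Pool.Agent.H20.EG
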