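import Pool.Agent.H20.EG.Funs
import Pool.Agent.H20.EG.Dim

/-!
# Project EG (MP_a3214d): the patched data over `k[[z]]`
-/

set_option autoImplicit false
set_option linter.unusedSectionVars false

namespace Pool.Agent.H20.EG

open Polynomial Pool.Agent.H47.Patch

theorem li_series {k : Type*} [Field k] {Ω : Type*} {D : ℕ} (b : Fin D → Ω → k[X])
    (hb : LinearIndependent k b) (h : Fin D → Ω → PowerSeries (RatFunc k))
    (hh : ∀ s ω, PowerSeries.constantCoeff (h s ω) = algebraMap k[X] (RatFunc k) (b s ω))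
    (α : Fin D → PowerSeries k)
    (hα : ∀ ω, ∑ s, PowerSeries.map (algebraMap k (RatFunc k)) (α s) * h s ω = 0) :
    ∀ s, α s = 0 := by
  have key : ∀ t s, PowerSeries.coeff t (α s) = 0 := by
    intro t
    induction t using Nat.strong_induction_on with
    | _ t ih =>
      have h1 : ∀ ω, ∑ s, PowerSeries.coeff t (α s) • b s ω = 0 := by
        intro ω
        have h2 := congrArg (PowerSeries.coeff t) (hα ω)
        rw [map_sum, map_zero] at h2
        have h3 : ∀ s, PowerSeries.coeff t (PowerSeries.map (algebraMap k (RatFunc k)) (α s) *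
            h s ω) = algebraMap k[X] (RatFunc k) (PowerSeries.coeff t (α s) • b s ω) := by
          intro s
          rw [PowerSeries.coeff_mul]
          rw [Finset.sum_eq_single (t, 0)]
          · rw [PowerSeries.coeff_map, PowerSeries.coeff_zero_eq_constantCoeff_apply, hh,
              Polynomial.smul_eq_C_mul, map_mul, RatFunc.algebraMap_C, RatFunc.algebraMap_eq_C]
          · rintro ⟨i, j⟩ hij hne
            rw [Finset.HasAntidiagonal.mem_antidiagonal] at hij
            simp only at hij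
            have h4 : i < t := by
              rcases Nat.lt_or_ge i t with h5 | h5
              · exact h5
              · exfalso
                apply hne
                have : i = t := by omega
                have : j = 0 := by omega
                simp [*]
            rw [PowerSeries.coeff_map, ih i h4, map_zero, zero_mul]
          · intro h5
            exact absurd (by rw [Finset.HasAntidiagonal.mem_antidiagonal]; simp) h5
        simp only [h3] at h2
        rw [← map_sum, map_eq_zero_iff _ algebraMap_injective'] at h2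
        exact h2
      have h2 : ∑ s, PowerSeries.coeff t (α s) • b s = 0 := by
        funext ω
        rw [Finset.sum_apply]
        simpa using h1 ω
      exact (Fintype.linearIndependent_iff.1 hb) _ h2
  intro s
  ext t
  rw [key t s, map_zero]

/-- the patched data -/
structure Dat (k : Type) [Field k] (N : Type) [Group N] [Fintype N] (H : Subgroup N)
    (D d : ℕ) where
  f : N → PowerSeries (RatFunc k)
  inj : Function.Injective f
  Φ : Polynomial (Polynomial (PowerSeries k))
  Φm : Φ.Monic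
  Φd : Φ.natDegree = Fintype.card N
  Φe : Φ.map (iot k) = ∏ m, (X - C (f m))
  irr : ∀ (S : Finset N) (b : Polynomial (PowerSeries k)), b ≠ 0 →
        (∀ j, ∃ P, iot k P = iot k b * (∏ m ∈ S, (X - C (f m))).coeff j) →
          S = ∅ ∨ S = Finset.univ
  Δ : Polynomial (PowerSeries k)
  Δne : Δ ≠ 0
  Λ : N → Polynomial (Polynomial (PowerSeries k))
  Λe : ∀ n m, iot k Δ * f (n⁻¹ * m) = ((Λ n).map (iot k)).eval (f m)
  h : Fin D → N → PowerSeries (RatFunc k)
  inv : ∀ s, ∀ σ ∈ H, ∀ m, h s (σ * m) = h s m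
  Γ : Fin D → Polynomial (Polynomial (PowerSeries k))
  Γd : ∀ s, (Γ s).natDegree < Fintype.card N
  Γe : ∀ s m, iot k Δ * h s m = ((Γ s).map (iot k)).eval (f m)
  Ψ : Fin D → Polynomial (Polynomial (PowerSeries k))
  Ψm : ∀ s, (Ψ s).Monic
  Ψd : ∀ s, (Ψ s).natDegree = Fintype.card N
  Ψe : ∀ s, (Ψ s).map (iot k) = ∏ m, (X - C (h s m))
  Ψw : ∀ s, ∀ j ≤ Fintype.card N, ((Ψ s).coeff j).natDegree ≤ d * (Fintype.card N - j)
  li : ∀ α : Fin D → PowerSeries k, ∑ s, C (C (α s)) * Γ s = 0 → ∀ s, α s = 0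

/-- the patched data for a transitive group and a set of generators -/
theorem exists_dat (k : Type) [Field k] [CharZero k] {n : ℕ} (G : Subgroup (Equiv.Perm (Fin n)))
    [Fintype G] (ω₀ : Fin n) (htr : ∀ ω, ∃ m : G, (m : Equiv.Perm (Fin n)) ω₀ = ω)
    {I : Type} [Fintype I] (g : I → G) (hg : Subgroup.closure (Set.range g) = ⊤)
    (ζ : I → k) (hζ : ∀ i, IsPrimitiveRoot (ζ i) (orderOf (g i))) (d : ℕ)
    (hd : Fintype.card I ≤ d + 1) (H : Subgroup G)
    (hH : ∀ σ ∈ H, (σ : Equiv.Perm (Fin n)) ω₀ = ω₀) :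
    ∃ D : ℕ, n * (d + 1) ≤ D + ∑ i, (n - orb (g i : Equiv.Perm (Fin n))) ∧
      Nonempty (Dat k G H D d) := by
  classical
  have hinf : Infinite k := inferInstance
  let c : I ↪ k := ((Fintype.equivFin I).toEmbedding.trans Fin.valEmbedding).trans
    (Infinite.natEmbedding k)
  have hc : Function.Injective c := c.injective
  let w : I → RatFunc k := fun i => (algebraMap k[X] (RatFunc k) (X - C (c i)))⁻¹
  have hw : ∀ i, w i * algebraMap k[X] (RatFunc k) (X - C (c i)) = 1 := by
    intro i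
    apply inv_mul_cancel₀
    rw [Ne, map_eq_zero_iff _ algebraMap_injective']
    exact X_sub_C_ne_zero _
  let g' : I → G := fun i => (g i)⁻¹
  have ho : ∀ i, orderOf (g' i) = orderOf (g i) := fun i => orderOf_inv _
  have hζ' : ∀ i, IsPrimitiveRoot (ζ i) (orderOf (g' i)) := by
    intro i
    rw [ho]
    exact hζ i
  have hg' : Subgroup.closure (Set.range g') = ⊤ := by
    rw [eq_top_iff, ← hg, Subgroup.closure_le]
    rintro _ ⟨i, rfl⟩
    have h1 : g' i ∈ Subgroup.closure (Set.range g') := Subgroup.subset_closure ⟨i, rfl⟩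
    have h2 := Subgroup.inv_mem _ h1
    rwa [show (g' i)⁻¹ = g i from inv_inv _] at h2
  obtain ⟨f, hf, hinj, Φ, hΦm, hΦd, hΦ⟩ := exists_prim hc hw g' ζ hζ'
  obtain ⟨Δ, hΔ, hlag⟩ := exists_lagrange hc hw g' ζ hζ' hf hinj
  let π : G → Fin n := fun m => ((m⁻¹ : G) : Equiv.Perm (Fin n)) ω₀
  have hπ : ∀ m i, π (m * g' i) = (g i : Equiv.Perm (Fin n)) (π m) := by
    intro m i
    show (((m * (g i)⁻¹)⁻¹ : G) : Equiv.Perm (Fin n)) ω₀ = _
    rw [mul_inv_rev, inv_inv]
    rfl
  have hγ : ∀ i ω, (fun ω => (g i : Equiv.Perm (Fin n)) ω)^[orderOf (g' i)] ω = ω := by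
    intro i ω
    rw [ho]
    have h1 : (fun ω => (g i : Equiv.Perm (Fin n)) ω)^[orderOf (g i)] ω =
        ((g i : Equiv.Perm (Fin n)) ^ orderOf (g i)) ω := by
      rw [Equiv.Perm.iterate_eq_pow]
    rw [h1]
    have h2 : (g i : Equiv.Perm (Fin n)) ^ orderOf (g i) = 1 := by
      rw [← Subgroup.orderOf_coe]
      exact pow_orderOf_eq_one _
    rw [h2]
    rfl
  have hπs : Function.Surjective π := by
    intro ω
    obtain ⟨m, hm⟩ := htr ω
    refine ⟨m⁻¹, ?_⟩
    show (((m⁻¹)⁻¹ : G) : Equiv.Perm (Fin n)) ω₀ = ω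
    rw [inv_inv, hm]
  obtain ⟨D, b, hD, hbli, hbd, hbc⟩ := exists_special (c : I → k)
    (fun i => (g i : Equiv.Perm (Fin n))) d
  rw [Fintype.card_fin] at hD
  refine ⟨D, hD, ?_⟩
  have hfun := fun s => exists_fun hc hw g' ζ hζ' π (fun i ω => (g i : Equiv.Perm (Fin n)) ω)
    hπ hγ d hd (b s) (hbd s) (hbc s)
  choose h h1 h2 h3 using hfun
  choose Λ _ hΛe using fun n : G => hlag (fun m => f (n⁻¹ * m)) (TR1_translate hw g' ζ hf n⁻¹)
  choose Γ hΓd hΓe using fun s => hlag (fun m => h s (π m)) (h3 s)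
  choose Ψ hΨm hΨd hΨe hΨw using fun s => exists_char hc hw g' ζ hζ' (h3 s) (fun m => h1 s (π m))
  refine ⟨{
    f := f
    inj := hinj
    Φ := Φ
    Φm := hΦm
    Φd := hΦd
    Φe := hΦ
    irr := fun S b hb hP => irr1 hw g' ζ hζ' hg' hf hinj S b hb hP
    Δ := Δ
    Δne := hΔ
    Λ := Λ
    Λe := hΛe
    h := fun s m => h s (π m)
    inv := ?_
    Γ := Γ
    Γd := hΓd
    Γe := hΓe
    Ψ := Ψ
    Ψm := hΨm
    Ψd := hΨd
    Ψe := hΨe
    Ψw := hΨw
    li := ?_ }⟩
  · intro s σ hσ m
    have h4 : π (σ * m) = π m := by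
      show (((σ * m)⁻¹ : G) : Equiv.Perm (Fin n)) ω₀ = ((m⁻¹ : G) : Equiv.Perm (Fin n)) ω₀
      rw [mul_inv_rev]
      have h5 : ((σ⁻¹ : G) : Equiv.Perm (Fin n)) ω₀ = ω₀ := by
        have h6 := hH σ hσ
        show ((σ : Equiv.Perm (Fin n))⁻¹) ω₀ = ω₀
        rw [Equiv.Perm.inv_eq_iff_eq, h6]
      show ((m⁻¹ : G) : Equiv.Perm (Fin n)) (((σ⁻¹ : G) : Equiv.Perm (Fin n)) ω₀) = _
      rw [h5]
    show h s (π (σ * m)) = h s (π m)
    rw [h4]
  · intro α hα
    refine li_series b hbli h h2 α fun ω => ?_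
    obtain ⟨m, rfl⟩ := hπs ω
    have h4 := congrArg (fun q => (q.map (iot k)).eval (f m)) hα
    simp only [Polynomial.map_sum, Polynomial.map_mul, map_C, eval_finsetSum, eval_mul, eval_C,
      Polynomial.map_zero, eval_zero, iot_C] at h4
    simp only [← hΓe] at h4
    have h5 : iot k Δ * ∑ s, PowerSeries.map (algebraMap k (RatFunc k)) (α s) * h s (π m) = 0 := by
      rw [← h4, Finset.mul_sum]
      apply Finset.sum_congr rfl
      intro s _
      ring
    rcases mul_eq_zero.1 h5 with h6 | h6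
    · rw [map_eq_zero_iff _ iot_injective] at h6
      exact absurd h6 hΔ
    · exact h6

end Pool.Agent.H20.EG
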