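import Pool.Agent.H20.ML.FieldEx

/-!
# Project EG (MP_a3214d): the fixed field of a point stabiliser
-/

set_option autoImplicit false

namespace Pool.Agent.H20.EG

open Polynomial Pool.Agent.H20.ML

theorem exists_fix {k : Type} [Field k] [NumberField k] {n : ℕ} (G : Subgroup (Equiv.Perm (Fin n)))
    [Fintype G] (ω₀ : Fin n) (htr : ∀ ω, ∃ m : G, (m : Equiv.Perm (Fin n)) ω₀ = ω)
    {E : Type} [Field E] [Algebra (RatFunc k) E] [FiniteDimensional (RatFunc k) E]
    (act : G →* (E ≃ₐ[RatFunc k] E)) (hinj : Function.Injective act)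
    (hfin : Module.finrank (RatFunc k) E = Fintype.card G) (H : Subgroup G)
    (hH : ∀ σ : G, σ ∈ H ↔ (σ : Equiv.Perm (Fin n)) ω₀ = ω₀) :
    ∃ (L : IntermediateField (RatFunc k) (AlgebraicClosure (RatFunc k)))
      (j : E →ₐ[RatFunc k] AlgebraicClosure (RatFunc k)),
      Module.finrank (RatFunc k) L = n ∧ HasGroup (RatFunc k) n G L ∧
      (∀ x : E, (∀ σ ∈ H, act σ x = x) → j x ∈ L) ∧ ∀ x ∈ L, ∃ x' : E, j x' = x := by
  classical
  have hcard : Nat.card (E ≃ₐ[RatFunc k] E) = Fintype.card G := by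
    apply le_antisymm
    · rw [← hfin, Nat.card_eq_fintype_card]
      exact AlgEquiv.card_le
    · rw [← Nat.card_eq_fintype_card]
      exact Nat.card_le_card_of_injective act hinj
  have hgal : IsGalois (RatFunc k) E := IsGalois.of_card_aut_eq_finrank _ _ (by rw [hcard, hfin])
  have hsurj : Function.Surjective act := by
    have hb : Function.Bijective act := by
      have : Fintype (E ≃ₐ[RatFunc k] E) := inferInstance
      rw [Fintype.bijective_iff_injective_and_card]
      refine ⟨hinj, ?_⟩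
      rw [← hcard, Nat.card_eq_fintype_card]
    exact hb.2
  set K0 : IntermediateField (RatFunc k) E := IntermediateField.fixedField (H.map act) with hK0
  let j : E →ₐ[RatFunc k] AlgebraicClosure (RatFunc k) := IsAlgClosed.lift
  let L : IntermediateField (RatFunc k) (AlgebraicClosure (RatFunc k)) := K0.map j
  let eK : K0 ≃ₐ[RatFunc k] L := K0.equivMap j
  let i : L →ₐ[RatFunc k] E := K0.val.comp (eK.symm : L →ₐ[RatFunc k] K0)
  have hi : i.fieldRange = K0 := by
    ext x
    constructor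
    · rintro ⟨y, rfl⟩
      exact (eK.symm y).2
    · intro hx
      exact ⟨eK ⟨x, hx⟩, by
        show K0.val (eK.symm (eK ⟨x, hx⟩)) = x
        rw [AlgEquiv.symm_apply_apply]
        rfl⟩
  have hfix : (i.fieldRange).fixingSubgroup = H.map act := by
    rw [hi, hK0, IntermediateField.fixingSubgroup_fixedField]
  have hq : ∀ g h : G, ml9_q j i (act g) = ml9_q j i (act h) ↔
      (g : Equiv.Perm (Fin n)) ω₀ = (h : Equiv.Perm (Fin n)) ω₀ := by
    intro g h
    rw [ml9_q_eq_iff, hfix]
    have h1 : (act g)⁻¹ * act h ∈ H.map act ↔ g⁻¹ * h ∈ H := by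
      rw [← map_inv, ← map_mul]
      exact Subgroup.mem_map_iff_mem hinj
    rw [h1, hH]
    show (g : Equiv.Perm (Fin n))⁻¹ ((h : Equiv.Perm (Fin n)) ω₀) = ω₀ ↔ _
    rw [Equiv.Perm.inv_eq_iff_eq]
    exact ⟨fun h => h.symm, fun h => h.symm⟩
  have hsur : ∀ φ : L →ₐ[RatFunc k] AlgebraicClosure (RatFunc k), ∃ g : G,
      ml9_q j i (act g) = φ := by
    intro φ
    obtain ⟨g, hg⟩ := ml9_surj j i φ
    obtain ⟨g', rfl⟩ := hsurj g
    exact ⟨g', hg⟩
  choose gg hgg using hsur
  let e : (L →ₐ[RatFunc k] AlgebraicClosure (RatFunc k)) ≃ Fin n :=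
    Equiv.ofBijective (fun φ => (gg φ : Equiv.Perm (Fin n)) ω₀) (by
      constructor
      · intro φ φ' h
        rw [← hgg φ, ← hgg φ', hq]
        exact h
      · intro ω
        obtain ⟨m, hm⟩ := htr ω
        refine ⟨ml9_q j i (act m), ?_⟩
        show (gg (ml9_q j i (act m)) : Equiv.Perm (Fin n)) ω₀ = ω
        rw [← hm, ← hq, hgg])
  have he : ∀ g : G, e (ml9_q j i (act g)) = (g : Equiv.Perm (Fin n)) ω₀ := by
    intro g
    show (gg (ml9_q j i (act g)) : Equiv.Perm (Fin n)) ω₀ = _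
    rw [← hq, hgg]
  refine ⟨L, j, ?_, ⟨e, fun π => ?_⟩, ?_, ?_⟩
  · have hfd : FiniteDimensional (RatFunc k) L := LinearEquiv.finiteDimensional eK.toLinearEquiv
    have h1 : Fintype.card (L →ₐ[RatFunc k] AlgebraicClosure (RatFunc k)) = n := by
      rw [Fintype.card_congr e, Fintype.card_fin]
    have hch : CharZero (RatFunc k) := charZero_of_injective_algebraMap
      (algebraMap k (RatFunc k)).injective
    have hsep : Algebra.IsSeparable (RatFunc k) L := inferInstance
    rw [← h1]
    exact (AlgHom.card (RatFunc k) L (AlgebraicClosure (RatFunc k))).symm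
  · rw [ml9_group_iff j i e π]
    constructor
    · intro hπ
      refine ⟨act ⟨π, hπ⟩, fun h => ?_⟩
      obtain ⟨h', rfl⟩ := hsurj h
      rw [← map_mul, he, he]
      rfl
    · rintro ⟨g, hg⟩
      obtain ⟨g', rfl⟩ := hsurj g
      have h1 : π = (g' : Equiv.Perm (Fin n)) := by
        ext1 ω
        obtain ⟨m, rfl⟩ := htr ω
        have h2 := hg (act m)
        rw [← map_mul, he, he] at h2
        rw [← h2]
        rfl
      rw [h1]
      exact g'.2
  · intro x hx
    refine ⟨x, ?_, rfl⟩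
    show x ∈ K0
    rw [hK0, IntermediateField.mem_fixedField_iff]
    rintro _ ⟨σ, hσ, rfl⟩
    exact hx σ hσ
  · rintro x ⟨x', _, rfl⟩
    exact ⟨x', rfl⟩

end Pool.Agent.H20.EG
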