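import Pool.Agent.H20.EG.Ring

/-!
# Project EG (MP_a3214d): functions in the patched ring
-/

set_option autoImplicit false
set_option linter.unusedSectionVars false

namespace Pool.Agent.H20.EG

open Polynomial Pool.Agent.H47.Patch

variable {k : Type*} [Field k] [CharZero k] {I : Type*} [Fintype I]
  {c : I → k} {w : I → RatFunc k} (hc : Function.Injective c)
  (hw : ∀ i, w i * algebraMap k[X] (RatFunc k) (X - C (c i)) = 1)
  {N : Type*} [Group N] [Fintype N] (g : I → N) (ζ : I → k)
  (hζ : ∀ i, IsPrimitiveRoot (ζ i) (orderOf (g i)))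

theorem mem_TR1 {d : ℕ} {h : N → PowerSeries (RatFunc k)} (hd : ∀ m, h m ∈ PM c d)
    (hl : ∀ i m, ∃ a : ℕ → PowerSeries (RatFunc k),
      (∀ j, j < orderOf (g i) → a j ∈ PS (Oc (c i))) ∧
        (∀ j, 0 < j → j < orderOf (g i) → ∀ t, w i * PowerSeries.coeff t (a j) ∈ Oc (c i)) ∧
        ∀ l, h (m * g i ^ l) = ∑ j ∈ Finset.range (orderOf (g i)),
          (PowerSeries.C (algebraMap k (RatFunc k) (ζ i ^ l)) * rt (orderOf (g i)) (w i)) ^ j *
            a j) : h ∈ TR1 hw g ζ := by
  classical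
  refine ⟨fun m => ⟨d, hd m⟩, fun i m => ?_⟩
  obtain ⟨a, ha, ha', hl⟩ := hl i m
  refine ⟨∑ j ∈ Finset.range (orderOf (g i)), C (a j) * X ^ j, ?_, fun l => ?_⟩
  · have hcoef : ∀ j, (∑ j ∈ Finset.range (orderOf (g i)), C (a j) * X ^ j).coeff j =
        if j < orderOf (g i) then a j else 0 := by
      intro j
      rw [finsetSum_coeff]
      simp only [coeff_C_mul, coeff_X_pow, mul_ite, mul_one, mul_zero]
      rw [Finset.sum_ite_eq]
      simp only [Finset.mem_range]
    show _ ∈ Fi _ _ _ _ _ _ _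
    rw [mem_Fi]
    intro j t
    rw [hcoef]
    split_ifs with hj
    · rcases Nat.eq_zero_or_pos j with h0 | h0
      · subst h0
        rw [ce_zero (orderOf_pos (g i)), pow_zero, one_mul]
        exact ha 0 hj t
      · rw [ce_one h0 hj, pow_one]
        exact ha' j h0 hj t
    · rw [map_zero, mul_zero]
      exact zero_mem _
  · rw [hl l, eval_finsetSum]
    apply Finset.sum_congr rfl
    intro j _
    rw [eval_mul, eval_C, eval_pow, eval_X, mul_comm, algebraMap_ps]

include hc hζ in
/-- functions on a quotient of the group -/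
theorem exists_fun {Ω : Type*} (π : N → Ω) (γ : I → Ω → Ω) (hπ : ∀ m i, π (m * g i) = γ i (π m))
    (hγ : ∀ i ω, (γ i)^[orderOf (g i)] ω = ω) (d : ℕ) (hd : Fintype.card I ≤ d + 1)
    (h0 : Ω → k[X]) (hdeg : ∀ ω, (h0 ω).natDegree ≤ d)
    (hcomp : ∀ i ω, (h0 (γ i ω)).eval (c i) = (h0 ω).eval (c i)) :
    ∃ h : Ω → PowerSeries (RatFunc k), (∀ ω, h ω ∈ PM c d) ∧
      (∀ ω, PowerSeries.constantCoeff (h ω) = algebraMap k[X] (RatFunc k) (h0 ω)) ∧
      (fun m => h (π m)) ∈ TR1 hw g ζ := by
  obtain ⟨h, h1, h2, h3⟩ := exists_lift hc hw (fun i => orderOf (g i))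
    (fun i => orderOf_pos (g i)) ζ hζ γ hγ d hd h0 hdeg hcomp
  refine ⟨h, h1, h2, mem_TR1 hw g ζ (fun m => h1 (π m)) fun i m => ?_⟩
  obtain ⟨a, ha, ha', hl⟩ := h3 i (π m)
  refine ⟨a, ha, ha', fun l => ?_⟩
  rw [← hl l]
  congr 1
  induction l with
  | zero => simp
  | succ l ih => rw [pow_succ, ← mul_assoc, hπ, ih, Function.iterate_succ_apply']

include hc hζ in
/-- a primitive element -/
theorem exists_prim : ∃ f ∈ TR1 hw g ζ, Function.Injective f ∧
    ∃ Φ : Polynomial (Polynomial (PowerSeries k)), Φ.Monic ∧ Φ.natDegree = Fintype.card N ∧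
      Φ.map (iot k) = ∏ m, (X - C (f m)) := by
  classical
  have hinf : Infinite k := inferInstance
  let f0 : N ↪ k := ((Fintype.equivFin N).toEmbedding.trans Fin.valEmbedding).trans
    (Infinite.natEmbedding k)
  obtain ⟨h, h1, h2, h3⟩ := exists_fun hc hw g ζ hζ (Ω := N) id (fun i m => m * g i)
    (fun m i => rfl) (fun i ω => by
      have : ∀ l, (fun m : N => m * g i)^[l] ω = ω * g i ^ l := by
        intro l
        induction l with
        | zero => simp
        | succ l ih => rw [Function.iterate_succ_apply', ih, pow_succ, mul_assoc]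
      rw [this, pow_orderOf_eq_one, mul_one]) (Fintype.card I) (Nat.le_succ _)
    (fun m => C (f0 m) * qq c) (fun m => by
      refine (natDegree_C_mul_le _ _).trans ?_
      rw [qq_natDegree]) (fun i m => by
      have hz : (qq c).eval (c i) = 0 := by
        rw [qq, eval_prod]
        exact Finset.prod_eq_zero (Finset.mem_univ i) (by simp)
      rw [eval_mul, eval_mul, hz, mul_zero, mul_zero])
  have hinj : Function.Injective h := by
    intro m m' hm
    have h4 := congrArg PowerSeries.constantCoeff hm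
    rw [h2, h2] at h4
    have h5 := algebraMap_injective' h4
    have h6 := mul_right_cancel₀ (qq_ne_zero c) h5
    exact f0.injective (C_injective h6)
  obtain ⟨Φ, hΦm, hΦd, hΦ, _⟩ := exists_char hc hw g ζ hζ h3 (d := Fintype.card I) (fun m => h1 m)
  exact ⟨h, h3, hinj, Φ, hΦm, hΦd, hΦ⟩

end Pool.Agent.H20.EG
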