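import Pool.Agent.H20.EG.Model
import Pool.Agent.H47.Patch.Core

/-!
# Project EG (MP_a3214d): the specialised Galois extension of `k(x)`
-/

set_option autoImplicit false
set_option linter.unusedSectionVars false

namespace Pool.Agent.H20.EG

open Polynomial Pool.Agent.H47.Patch

theorem exists_galois {k₁ : Type} [Field k₁] {N : Type} [Group N] [Fintype N] {H : Subgroup N}
    {D d : ℕ} {Q : Dat k₁ N H D d} {K : Type} [Field K] (M : Mod Q K) {k : Type} [Field k]
    [CharZero k] (ψ : K →+* k) :
    ∃ (E : Type) (_ : Field E) (_ : Algebra (RatFunc k) E) (act : N →* (E ≃ₐ[RatFunc k] E))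
      (y : E) (Φ : k[X][X]) (η : Fin D → E),
      FiniteDimensional (RatFunc k) E ∧ Module.finrank (RatFunc k) E = Fintype.card N ∧
      Function.Injective act ∧ (∀ s, ∀ σ ∈ H, act σ (η s) = η s) ∧
      (∀ s, ∃ P : k[X][X], P.Monic ∧
        eval₂ ((algebraMap (RatFunc k) E).comp (algebraMap k[X] (RatFunc k))) (η s) P = 0 ∧
        ∀ j ≤ P.natDegree, (P.coeff j).natDegree ≤ d * (P.natDegree - j)) ∧
      (∀ α : Fin D → k, ∑ s, algebraMap (RatFunc k) E (RatFunc.C (α s)) * η s = 0 →
        ∀ s, α s = 0) ∧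
      Φ.Monic ∧ Φ.natDegree = Fintype.card N ∧
      eval₂ ((algebraMap (RatFunc k) E).comp (algebraMap k[X] (RatFunc k))) y Φ = 0 ∧
      ∀ (F : Type) [Field F] (ψ' : k →+* F), ∀ U V : F[X][X], U.Monic → V.Monic →
        Φ.map (mapRingHom ψ') = U * V → U = 1 ∨ V = 1 := by
  classical
  obtain ⟨A, i, hi, φ, Φ, Φm, Φe, Δ, Δe, Λ, Λe, Γ, Γe, Ψ, Ψm, Ψe, ne, geom, li⟩ := M
  have hcardpos : 0 < Fintype.card N := Fintype.card_pos
  let aF : PowerSeries (RatFunc k₁) →+* FractionRing (PowerSeries (RatFunc k₁)) := algebraMap _ _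
  have haF : Function.Injective aF := IsFractionRing.injective _ _
  let FF := FractionRing (PowerSeries (RatFunc k₁))
  let j0 : A[X] →+* FF := aF.comp ((iot k₁).comp (mapRingHom i))
  have hj0 : Function.Injective j0 :=
    haF.comp (iot_injective.comp (Polynomial.map_injective i hi))
  let φ' : A →+* k := ψ.comp φ
  let ev0 : A[X] →+* RatFunc k := (algebraMap k[X] (RatFunc k)).comp (mapRingHom φ')
  have hmapj : ∀ (P : A[X][X]), P.map j0 = ((P.map (mapRingHom i)).map (iot k₁)).map aF := by
    intro P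
    rw [Polynomial.map_map, Polynomial.map_map]
    rfl
  have hev0ne : ev0 Δ ≠ 0 := by
    intro h0
    apply ne
    have h1 : Δ.map φ' = 0 := by
      have h2 : algebraMap k[X] (RatFunc k) (Δ.map φ') = 0 := h0
      rwa [map_eq_zero_iff _ algebraMap_injective'] at h2
    have h2 : (Δ.map φ).map ψ = 0 := by
      rw [Polynomial.map_map]; exact h1
    rwa [Polynomial.map_eq_zero_iff ψ.injective] at h2
  let fF : N → FF := fun m => aF (Q.f m)
  have hfF : Function.Injective fF := haF.comp Q.inj
  have hΦd : Φ.natDegree = Fintype.card N := by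
    rw [← Q.Φd, ← Φe, Φm.natDegree_map]
  have hΦj : Φ.map j0 = ∏ m, (X - C (fF m)) := by
    rw [hmapj, Φe, Q.Φe, Polynomial.map_prod]
    simp only [Polynomial.map_sub, map_X, map_C]
    rfl
  have heval : ∀ (P : A[X][X]) m, (P.map j0).eval (fF m) =
      aF (((P.map (mapRingHom i)).map (iot k₁)).eval (Q.f m)) := by
    intro P m
    rw [hmapj, eval_map aF, eval₂_at_apply]
  have hΔj : j0 Δ = aF (iot k₁ Q.Δ) := by
    rw [← Δe]; rfl
  have hΛj : ∀ n m, j0 Δ * fF (n⁻¹ * m) = ((Λ n).map j0).eval (fF m) := by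
    intro n m
    rw [heval, Λe, ← Q.Λe, hΔj, map_mul]
  have hΓj : ∀ s m, j0 Δ * aF (Q.h s m) = ((Γ s).map j0).eval (fF m) := by
    intro s m
    rw [heval, Γe, ← Q.Γe, hΔj, map_mul]
  have hΨj : ∀ s, (Ψ s).map j0 = ∏ m, (X - C (aF (Q.h s m))) := by
    intro s
    rw [hmapj, Ψe, Q.Ψe, Polynomial.map_prod]
    simp only [Polynomial.map_sub, map_X, map_C]
  -- the localisation
  have hp : (RingHom.ker ev0).IsPrime := RingHom.ker_isPrime ev0
  let R := Localization.AtPrime (RingHom.ker ev0)
  have hne : ∀ y : (RingHom.ker ev0).primeCompl, ev0 y ≠ 0 :=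
    fun y h0 => y.2 ((RingHom.mem_ker).2 h0)
  have hne' : ∀ y : (RingHom.ker ev0).primeCompl, (y : A[X]) ≠ 0 := by
    intro y h0
    apply hne y
    rw [h0, map_zero]
  let ι0 : R →+* FF := IsLocalization.lift (M := (RingHom.ker ev0).primeCompl) (g := j0)
    (fun y => IsUnit.mk0 _ (by rw [Ne, map_eq_zero_iff _ hj0]; exact hne' y))
  let ev : R →+* RatFunc k := IsLocalization.lift (M := (RingHom.ker ev0).primeCompl)
    (g := ev0) (fun y => IsUnit.mk0 _ (hne y))
  have hι0 : ∀ x, ι0 (algebraMap A[X] R x) = j0 x := fun x => IsLocalization.lift_eq _ x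
  have hev : ∀ x, ev (algebraMap A[X] R x) = ev0 x := fun x => IsLocalization.lift_eq _ x
  have hunit : ∀ r : R, ev r ≠ 0 → IsUnit r := locR_unit ev0 ev hev
  have hι0i : Function.Injective ι0 := by
    rw [injective_iff_map_eq_zero]
    intro r hr
    obtain ⟨⟨x, y⟩, h⟩ := IsLocalization.surj (RingHom.ker ev0).primeCompl r
    simp only at h
    have h1 : j0 x = 0 := by rw [← hι0, ← h, map_mul, hr, zero_mul]
    rw [map_eq_zero_iff _ hj0] at h1
    rw [h1, map_zero] at h
    exact (IsLocalization.map_units R y).mul_left_eq_zero.1 h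
  have hι0c : ι0.comp (algebraMap A[X] R) = j0 := RingHom.ext hι0
  have hevc : ev.comp (algebraMap A[X] R) = ev0 := RingHom.ext hev
  obtain ⟨u, hu⟩ := hunit (algebraMap A[X] R Δ) (by rw [hev]; exact hev0ne)
  -- the action on functions
  let actF : MulSemiringAction N (N → FF) :=
    { smul := fun g v m => v (g⁻¹ * m)
      one_smul := by
        intro v
        funext m
        show v (1⁻¹ * m) = v m
        rw [inv_one, one_mul]
      mul_smul := by
        intro g g' v
        funext m
        show v ((g * g')⁻¹ * m) = v (g'⁻¹ * (g⁻¹ * m))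
        rw [mul_inv_rev, mul_assoc]
      smul_zero := by intro g; rfl
      smul_add := by intro g u v; rfl
      smul_one := by intro g; rfl
      smul_mul := by intro g u v; rfl }
  have hsm : ∀ (g : N) (v : N → FF) m, (g • v) m = v (g⁻¹ * m) := fun g v m => rfl
  let ι : R →+* (N → FF) := RingHom.pi (fun _ => ι0)
  have hev2 : ∀ (v : N → FF) (p : R[X]) m, (eval₂ ι v p) m = eval₂ ι0 (v m) p := by
    intro v p m
    exact Polynomial.hom_eval₂ p ι (Pi.evalRingHom (fun _ : N => FF) m) v
  let β : N →* (RatFunc k ≃+* RatFunc k) := 1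
  let ΦR : R[X] := Φ.map (algebraMap A[X] R)
  have hΦι : ΦR.map ι0 = ∏ m, (X - C (fF m)) := by
    rw [Polynomial.map_map, hι0c, hΦj]
  have hmR : ΦR.Monic := Φm.map _
  have hnt : Nontrivial R := inferInstance
  have h5 : ΦR.natDegree = Fintype.card N := by rw [Φm.natDegree_map, hΦd]
  have H1 : ∀ (g : N) r, ∃ r', g • ι r = ι r' ∧ ev r' = β g (ev r) := fun g r => ⟨r, rfl, rfl⟩
  have hdvd : ∀ (p : R[X]) (v : N → FF) (hv : Function.Injective v) (P : R[X]) (hP : P.Monic)
      (hPd : P.natDegree = Fintype.card N) (hPv : P.map ι0 = ∏ m, (X - C (v m))),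
      eval₂ ι v p = 0 → P ∣ p := by
    intro p v hv P hP hPd hPv hp0
    rw [← modByMonic_eq_zero_iff_dvd hP]
    by_contra hne0
    have hm1 : ∀ m, ((p %ₘ P).map ι0).eval (v m) = 0 := by
      intro m
      have h1 := congrArg (fun u => u m) hp0
      simp only [hev2, Pi.zero_apply] at h1
      rw [eval_map]
      have h2 := modByMonic_add_div p P
      have h3 : eval₂ ι0 (v m) P = 0 := by
        rw [← eval_map, hPv, eval_prod, Finset.prod_eq_zero (Finset.mem_univ m) (by simp)]
      rw [← h2, eval₂_add, eval₂_mul, h3, zero_mul, add_zero] at h1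
      exact h1
    have hne1 : (p %ₘ P).map ι0 ≠ 0 := by
      rw [Ne, Polynomial.map_eq_zero_iff hι0i]; exact hne0
    have h4 : (p %ₘ P).natDegree < P.natDegree := by
      apply natDegree_lt_natDegree hne0
      exact degree_modByMonic_lt _ hP
    have h6 : Fintype.card N ≤ ((p %ₘ P).map ι0).natDegree := by
      have h7 : (Finset.univ.image v).card = Fintype.card N :=
        Finset.card_image_of_injective _ hv
      rw [← h7]
      refine card_le_degree_of_subset_roots ?_
      intro z hz
      rw [Finset.mem_val, Finset.mem_image] at hz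
      obtain ⟨m, _, rfl⟩ := hz
      rw [mem_roots hne1, IsRoot.def]
      exact hm1 m
    have h8 := natDegree_map_le (f := ι0) (p := p %ₘ P)
    omega
  have H2 : ∀ p : R[X], eval₂ ι fF p = 0 → ΦR ∣ p := fun p hp =>
    hdvd p fF hfF ΦR hmR h5 hΦι hp
  have h0 : eval₂ ι fF ΦR = 0 := by
    funext m
    rw [hev2, ← eval_map, hΦι, eval_prod, Finset.prod_eq_zero (Finset.mem_univ m) (by simp)]
    rfl
  have hlift : ∀ (P : A[X][X]) (v : N → FF), (∀ m, j0 Δ * v m = (P.map j0).eval (fF m)) →
      v = eval₂ ι fF (C ((u⁻¹ : Rˣ) : R) * P.map (algebraMap A[X] R)) := by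
    intro P v hv
    funext m
    rw [hev2, eval₂_mul, eval₂_C, eval₂_map, hι0c, ← eval_map, ← hv m, ← hι0 Δ, ← hu,
      ← mul_assoc, ← map_mul, Units.inv_mul, map_one, one_mul]
  have H3' : ∀ g : N, g • fF = eval₂ ι fF (C ((u⁻¹ : Rˣ) : R) * (Λ g).map (algebraMap A[X] R)) :=
    fun g => hlift (Λ g) _ (fun m => hΛj g m)
  have H3 : ∀ g : N, ∃ L : R[X], g • fF = eval₂ ι fF L := fun g => ⟨_, H3' g⟩
  obtain ⟨act, hact1, hact2⟩ := ext_act β ι ev fF ΦR H2 H1 h0 H3
  -- irreducibility
  let Φk : k[X][X] := Φ.map (mapRingHom φ')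
  have hΦkm : Φk.Monic := Φm.map _
  have hΦkd : Φk.natDegree = Fintype.card N := by rw [Φm.natDegree_map, hΦd]
  have hgeomk : ∀ (F : Type) [Field F] (ψ' : k →+* F), ∀ U V : F[X][X], U.Monic → V.Monic →
        Φk.map (mapRingHom ψ') = U * V → U = 1 ∨ V = 1 := by
    intro F _ ψ' U V hU hV hUV
    refine geom F (ψ'.comp ψ) U V hU hV ?_
    rw [← hUV, Polynomial.map_map, mapRingHom_comp, RingHom.comp_assoc]
  have hΦev : ΦR.map ev = Φk.map (algebraMap k[X] (RatFunc k)) := by
    rw [Polynomial.map_map, hevc, Polynomial.map_map]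
  have hirrk : Irreducible Φk := by
    rw [irreducible_of_monic hΦkm]
    · intro U V hU hV hUV
      refine hgeomk k (RingHom.id k) U V hU hV ?_
      rw [← hUV, mapRingHom_id, Polynomial.map_id]
    · intro h1
      rw [h1, natDegree_one] at hΦkd
      omega
  have hirr : Irreducible (ΦR.map ev) := by
    rw [hΦev]
    exact (hΦkm.irreducible_iff_irreducible_map_fraction_map).1 hirrk
  have hfact : Fact (Irreducible (ΦR.map ev)) := ⟨hirr⟩
  have hchar : CharZero (RatFunc k) := charZero_of_injective_algebraMap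
    (algebraMap k (RatFunc k)).injective
  have hsep : (ΦR.map ev).Separable := hirr.separable
  let E := AdjoinRoot (ΦR.map ev)
  have hcomm : ∀ g (x : RatFunc k), act g (algebraMap (RatFunc k) E x)
      = algebraMap (RatFunc k) E x := by
    intro g x
    exact hact1 g x
  let act' : N →* (E ≃ₐ[RatFunc k] E) := MonoidHom.mk' (fun g =>
    AlgEquiv.ofRingEquiv (f := act g) (hcomm g)) (by
      intro g h
      ext x
      show act (g * h) x = act g (act h x)
      rw [map_mul]; rfl)
  have hact' : ∀ g x, act' g x = act g x := fun g x => rfl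
  have hfin : Module.finrank (RatFunc k) E = Fintype.card N := by
    have h1 : Module.finrank (RatFunc k) E = (ΦR.map ev).natDegree :=
      finrank_quotient_span_eq_natDegree
    rw [h1, hmR.natDegree_map, h5]
  have hfd : FiniteDimensional (RatFunc k) E :=
    Module.finite_of_finrank_pos (by rw [hfin]; exact hcardpos)
  -- values
  have hactP : ∀ (g : N) (p q : R[X]), g • eval₂ ι fF p = eval₂ ι fF q →
      act g (eP ev ΦR p) = eP ev ΦR q := by
    intro g p q hpq
    set L := C ((u⁻¹ : Rˣ) : R) * (Λ g).map (algebraMap A[X] R) with hL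
    have h1 := hact2 g L (H3' g)
    have h2 : ∀ p, act g (eP ev ΦR p) = eP ev ΦR (p.comp L) := by
      intro p
      induction p using Polynomial.induction_on with
      | C a =>
        rw [eP_C, C_comp, eP_C]
        exact hact1 g _
      | add p q hp hq => rw [map_add, map_add, add_comp, map_add, hp, hq]
      | monomial n a hn =>
        rw [pow_succ, ← mul_assoc, map_mul, map_mul, hn, mul_comp (C a * X ^ n) X, map_mul, X_comp,
          eP_X, h1]
    rw [h2]
    apply eP_eq ι ev fF ΦR H2
    rw [← hpq, eval₂_comp, ← H3' g]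
    funext m
    rw [hsm, hev2, hev2, hsm]
  have hroot : ∀ (P : A[X][X]), eP ev ΦR (P.map (algebraMap A[X] R)) =
      aeval (AdjoinRoot.root (ΦR.map ev)) ((P.map (mapRingHom φ')).map
        (algebraMap k[X] (RatFunc k))) := by
    intro P
    rw [eP, coe_eval₂RingHom, eval₂_map, aeval_def, eval₂_map, eval₂_map]
    congr 1
    rw [RingHom.comp_assoc, RingHom.comp_assoc, hevc]
    rfl
  -- injectivity of the action
  have hprodι : ΦR.map ι = ∏ n : N, (X - C (n • fF)) := by
    apply Polynomial.ext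
    intro j
    funext m
    have h1 : (ΦR.map ι).map (Pi.evalRingHom (fun _ : N => FF) m) = ΦR.map ι0 := by
      rw [Polynomial.map_map]; rfl
    have h2 : (∏ n : N, (X - C (n • fF))).map (Pi.evalRingHom (fun _ : N => FF) m)
        = ∏ m, (X - C (fF m)) := by
      rw [Polynomial.map_prod]
      refine Fintype.prod_equiv ((Equiv.inv N).trans (Equiv.mulRight m)) _ _ (fun n => ?_)
      rw [Polynomial.map_sub, map_X, map_C]
      rfl
    have h3 : (ΦR.map ι).map (Pi.evalRingHom (fun _ : N => FF) m)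
        = (∏ n : N, (X - C (n • fF))).map (Pi.evalRingHom (fun _ : N => FF) m) := by
      rw [h1, h2, hΦι]
    have h4 := congrArg (fun q => q.coeff j) h3
    simp only [coeff_map] at h4
    rw [coeff_map]
    exact h4
  have hprod := ext_prod ι ev fF ΦR H2 (fun n : N =>
    C ((u⁻¹ : Rˣ) : R) * (Λ n).map (algebraMap A[X] R)) (by
      rw [hprodι]
      apply Finset.prod_congr rfl
      intro n _
      rw [← H3' n])
  have hinjroot : Function.Injective (fun n : N =>
      eP ev ΦR (C ((u⁻¹ : Rˣ) : R) * (Λ n).map (algebraMap A[X] R))) := by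
    rw [← separable_prod_X_sub_C_iff, ← hprod]
    exact hsep.map
  have hactinj : Function.Injective act' := by
    rw [injective_iff_map_eq_one]
    intro g hg
    have h2 := hact2 g _ (H3' g)
    have h3 := hact2 1 _ (H3' 1)
    have h4 : act g (AdjoinRoot.root (ΦR.map ev)) = act 1 (AdjoinRoot.root (ΦR.map ev)) := by
      rw [← hact', ← hact', hg, map_one]
    rw [h2, h3] at h4
    exact hinjroot h4
  -- the functions
  let pΓ : Fin D → R[X] := fun s => C ((u⁻¹ : Rˣ) : R) * (Γ s).map (algebraMap A[X] R)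
  have hpΓ : ∀ s, (fun m => aF (Q.h s m)) = eval₂ ι fF (pΓ s) := fun s =>
    hlift (Γ s) _ (fun m => hΓj s m)
  have hΨnat : ∀ s, (Ψ s).natDegree = Fintype.card N := by
    intro s
    rw [← Q.Ψd s, ← Ψe s, (Ψm s).natDegree_map]
  let θ : k[X] →+* E := (algebraMap (RatFunc k) E).comp (algebraMap k[X] (RatFunc k))
  have hθ : ∀ p : A[X], θ (p.map φ') = AdjoinRoot.of (ΦR.map ev) (ev (algebraMap A[X] R p)) := by
    intro p
    rw [hev]
    rfl
  refine ⟨E, inferInstance, inferInstance, act', AdjoinRoot.root (ΦR.map ev), Φk,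
    fun s => eP ev ΦR (pΓ s), hfd, hfin, hactinj, ?_, ?_, ?_, hΦkm, hΦkd, ?_, hgeomk⟩
  · intro s σ hσ
    show act σ (eP ev ΦR (pΓ s)) = eP ev ΦR (pΓ s)
    apply hactP
    rw [← hpΓ]
    funext m
    rw [hsm]
    show aF (Q.h s (σ⁻¹ * m)) = aF (Q.h s m)
    rw [Q.inv s σ⁻¹ (H.inv_mem hσ)]
  · intro s
    refine ⟨(Ψ s).map (mapRingHom φ'), (Ψm s).map _, ?_, ?_⟩
    · have h1 : eP ev ΦR (((Ψ s).map (algebraMap A[X] R)).comp (pΓ s)) = 0 := by
        have h2 : eval₂ ι fF (((Ψ s).map (algebraMap A[X] R)).comp (pΓ s)) =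
            eval₂ ι fF (0 : R[X]) := by
          rw [eval₂_comp, ← hpΓ, eval₂_zero]
          funext m
          rw [hev2, eval₂_map, hι0c, ← eval_map, hΨj, eval_prod,
            Finset.prod_eq_zero (Finset.mem_univ m) (by simp)]
          rfl
        rw [eP_eq ι ev fF ΦR H2 h2, map_zero]
      have h3 : eP ev ΦR (((Ψ s).map (algebraMap A[X] R)).comp (pΓ s)) =
          eval₂ θ (eP ev ΦR (pΓ s)) ((Ψ s).map (mapRingHom φ')) := by
        rw [comp, hom_eval₂, eval₂_map, eval₂_map]
        congr 1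
        apply RingHom.ext
        intro p
        show eP ev ΦR (C (algebraMap A[X] R p)) = θ (p.map φ')
        rw [eP_C, hθ]
      rw [← h3]
      exact h1
    · intro j hj
      rw [(Ψm s).natDegree_map, hΨnat] at hj ⊢
      rw [coeff_map, coe_mapRingHom]
      refine natDegree_map_le.trans ?_
      have h1 := Q.Ψw s j hj
      rw [← Ψe s, coeff_map, coe_mapRingHom, natDegree_map_eq_of_injective hi] at h1
      exact h1
  · intro α hα
    have h1 : ∀ s, θ (Δ.map φ') * eP ev ΦR (pΓ s) =
        eP ev ΦR ((Γ s).map (algebraMap A[X] R)) := by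
      intro s
      rw [hθ, ← eP_C, ← map_mul]
      congr 1
      rw [← hu, ← mul_assoc, ← C_mul, Units.mul_inv, C_1, one_mul]
    let T : k[X][X] := ∑ s, C (C (α s)) * (Γ s).map (mapRingHom φ')
    have hT : T = ∑ s, C (C (α s)) * (Γ s).map (mapRingHom φ') := rfl
    have h2 : aeval (AdjoinRoot.root (ΦR.map ev)) (T.map (algebraMap k[X] (RatFunc k))) = 0 := by
      have h3 : aeval (AdjoinRoot.root (ΦR.map ev)) (T.map (algebraMap k[X] (RatFunc k))) =
          θ (Δ.map φ') * ∑ s, algebraMap (RatFunc k) E (RatFunc.C (α s)) * eP ev ΦR (pΓ s) := by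
        rw [hT, Polynomial.map_sum, map_sum, Finset.mul_sum]
        apply Finset.sum_congr rfl
        intro s _
        rw [Polynomial.map_mul, map_mul, map_C, aeval_C, ← hroot, ← h1, RatFunc.algebraMap_C]
        exact mul_left_comm _ _ _
      rw [h3, hα, mul_zero]
    rw [AdjoinRoot.aeval_eq, AdjoinRoot.mk_eq_zero] at h2
    have hΓd : ∀ s, (Γ s).natDegree < Fintype.card N := by
      intro s
      have h4 := Q.Γd s
      rw [← Γe s, natDegree_map_eq_of_injective (Polynomial.map_injective i hi)] at h4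
      exact h4
    have hTd : (T.map (algebraMap k[X] (RatFunc k))).natDegree < (ΦR.map ev).natDegree := by
      rw [hmR.natDegree_map, h5]
      refine lt_of_le_of_lt natDegree_map_le ?_
      have h4 : T.natDegree ≤ Fintype.card N - 1 := by
        refine natDegree_sum_le_of_forall_le _ _ fun s _ => ?_
        refine (natDegree_C_mul_le _ _).trans ?_
        refine natDegree_map_le.trans ?_
        have := hΓd s
        omega
      omega
    have h4 := eq_zero_of_dvd_of_natDegree_lt h2 hTd
    have h5 : T = 0 := by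
      rwa [Polynomial.map_eq_zero_iff algebraMap_injective'] at h4
    exact li k ψ α h5
  · have h1 := hroot Φ
    have h2 : eP ev ΦR (Φ.map (algebraMap A[X] R)) = 0 := eP_self ev ΦR
    rw [h2, aeval_def, eval₂_map] at h1
    exact h1.symm

end Pool.Agent.H20.EG
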