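import Mathlib

/-!
# Project EG (MP_a3214d): specialisation of linear independence
-/

set_option autoImplicit false

namespace Pool.Agent.H20.EG

open Polynomial

theorem exists_dual {A : Type*} [CommRing A] [IsDomain A] {D : ℕ} {P : Type*} [Fintype P]
    (v : Fin D → P → A) (hli : ∀ α : Fin D → A, (∀ p, ∑ s, α s * v s p = 0) → ∀ s, α s = 0) :
    ∃ (b : A) (β : P → Fin D → A), b ≠ 0 ∧
      ∀ s s', ∑ p, v s p * β p s' = if s = s' then b else 0 := by
  classical
  let K := FractionRing A
  have hinjK : Function.Injective (algebraMap A K) := IsFractionRing.injective A K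
  let M : (Fin D → K) →ₗ[K] (P → K) :=
    { toFun := fun α p => ∑ s, α s * algebraMap A K (v s p)
      map_add' := fun α α' => by
        funext p
        simp only [Pi.add_apply, add_mul, Finset.sum_add_distrib]
      map_smul' := fun a α => by
        funext p
        simp only [Pi.smul_apply, smul_eq_mul, RingHom.id_apply, mul_assoc]
        rw [Finset.mul_sum] }
  have hM : LinearMap.ker M = ⊥ := by
    rw [LinearMap.ker_eq_bot']
    intro α hα
    obtain ⟨q, hq⟩ := IsLocalization.exist_integer_multiples_of_finite (nonZeroDivisors A) α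
    choose a ha using hq
    have hq0 : algebraMap A K (q : A) ≠ 0 := by
      rw [Ne, map_eq_zero_iff _ hinjK]
      exact nonZeroDivisors.coe_ne_zero q
    have h1 : ∀ s, a s = 0 := by
      apply hli
      intro p
      apply hinjK
      rw [map_zero, map_sum]
      have h2 := congrFun hα p
      have h3 : ∑ s, algebraMap A K (a s * v s p) = algebraMap A K (q : A) * (M α p) := by
        show _ = algebraMap A K (q : A) * ∑ s, α s * algebraMap A K (v s p)
        rw [Finset.mul_sum]
        apply Finset.sum_congr rfl
        intro s _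
        rw [map_mul, ha, Algebra.smul_def]
        ring
      rw [h3, h2]
      simp
    funext s
    have h4 := ha s
    rw [h1 s, map_zero, Algebra.smul_def] at h4
    exact (mul_eq_zero.1 h4.symm).resolve_left hq0
  obtain ⟨B, hB⟩ := LinearMap.exists_leftInverse_of_injective M hM
  obtain ⟨q, hq⟩ := IsLocalization.exist_integer_multiples_of_finite (nonZeroDivisors A)
    (fun ps : P × Fin D => B (Pi.single ps.1 1) ps.2)
  choose β hβ using hq
  refine ⟨(q : A), fun p s => β (p, s), nonZeroDivisors.coe_ne_zero q, fun s s' => ?_⟩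
  apply hinjK
  rw [map_sum]
  have h1 : B (M (Pi.single s 1)) s' = if s = s' then 1 else 0 := by
    have h2 := DFunLike.congr_fun hB (Pi.single s (1 : K))
    rw [LinearMap.comp_apply, LinearMap.id_apply] at h2
    rw [h2, Pi.single_apply]
    by_cases h3 : s = s'
    · subst h3; simp
    · rw [if_neg h3, if_neg (fun h => h3 h.symm)]
  have h2 : M (Pi.single s 1) = ∑ p, algebraMap A K (v s p) • (Pi.single p (1 : K)) := by
    funext p
    rw [Finset.sum_apply]
    show ∑ s'', (Pi.single s (1 : K) : Fin D → K) s'' * algebraMap A K (v s'' p) = _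
    rw [Finset.sum_eq_single s]
    · rw [Pi.single_eq_same, one_mul, Finset.sum_eq_single p]
      · simp
      · intro p' _ hp'
        simp [Ne.symm hp']
      · intro h; exact absurd (Finset.mem_univ p) h
    · intro s'' _ hs''
      rw [Pi.single_apply, if_neg hs'', zero_mul]
    · intro h; exact absurd (Finset.mem_univ s) h
  rw [h2, map_sum, Finset.sum_apply] at h1
  have h3 : ∑ p, algebraMap A K (v s p * β (p, s')) = algebraMap A K (q : A) *
      ∑ p, (B (algebraMap A K (v s p) • (Pi.single p (1 : K)))) s' := by
    rw [Finset.mul_sum]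
    apply Finset.sum_congr rfl
    intro p _
    rw [map_mul, hβ, Algebra.smul_def, map_smul, Pi.smul_apply, smul_eq_mul]
    ring
  rw [h3, h1]
  split_ifs <;> simp

theorem exists_li {A : Type*} [CommRing A] [IsDomain A] {D : ℕ} (Γ : Fin D → A[X][X])
    (hli : ∀ α : Fin D → A, ∑ s, C (C (α s)) * Γ s = 0 → ∀ s, α s = 0) :
    ∃ b : A, b ≠ 0 ∧ ∀ (F : Type) [Field F] (φ : A →+* F), φ b ≠ 0 →
      ∀ α : Fin D → F, ∑ s, C (C (α s)) * (Γ s).map (mapRingHom φ) = 0 → ∀ s, α s = 0 := by
  classical
  obtain ⟨N, hN⟩ : ∃ N, ∀ s j l, (N ≤ j ∨ N ≤ l) → ((Γ s).coeff j).coeff l = 0 := by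
    refine ⟨(Finset.univ.sup fun s => (Γ s).natDegree) +
      (Finset.univ.sup fun s => (Γ s).support.sup fun j => ((Γ s).coeff j).natDegree) + 1, ?_⟩
    intro s j l h
    by_cases hj : j ∈ (Γ s).support
    · have h1 : j ≤ (Γ s).natDegree := le_natDegree_of_mem_supp j hj
      have h2 : (Γ s).natDegree ≤ Finset.univ.sup fun s => (Γ s).natDegree :=
        Finset.le_sup (f := fun s => (Γ s).natDegree) (Finset.mem_univ s)
      have h3 : ((Γ s).coeff j).natDegree ≤
          (Γ s).support.sup fun j => ((Γ s).coeff j).natDegree :=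
        Finset.le_sup (f := fun j => ((Γ s).coeff j).natDegree) hj
      have h4 : ((Γ s).support.sup fun j => ((Γ s).coeff j).natDegree) ≤
          Finset.univ.sup fun s => (Γ s).support.sup fun j => ((Γ s).coeff j).natDegree :=
        Finset.le_sup (f := fun s => (Γ s).support.sup fun j => ((Γ s).coeff j).natDegree)
          (Finset.mem_univ s)
      rcases h with h | h
      · omega
      · exact coeff_eq_zero_of_natDegree_lt (by omega)
    · rw [notMem_support_iff.1 hj, coeff_zero]
  obtain ⟨b, β, hb, hβ⟩ := exists_dual (P := Fin N × Fin N)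
    (fun s p => ((Γ s).coeff p.1).coeff p.2) (by
      intro α hα
      apply hli
      ext j l
      rw [finsetSum_coeff, finsetSum_coeff, coeff_zero, coeff_zero]
      simp only [coeff_C_mul]
      by_cases h : j < N ∧ l < N
      · exact hα (⟨j, h.1⟩, ⟨l, h.2⟩)
      · apply Finset.sum_eq_zero
        intro s _
        rw [hN s j l (by omega), mul_zero])
  refine ⟨b, hb, ?_⟩
  intro F _ φ hφ α hα
  have h1 : ∀ j l, ∑ s, α s * φ (((Γ s).coeff j).coeff l) = 0 := by
    intro j l
    have h2 := congrArg (fun q => (q.coeff j).coeff l) hα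
    simp only [finsetSum_coeff, coeff_C_mul, coeff_map, coe_mapRingHom, coeff_zero] at h2
    exact h2
  intro s'
  have h2 : ∑ p : Fin N × Fin N, (∑ s, α s * φ (((Γ s).coeff p.1).coeff p.2)) * φ (β p s') =
      α s' * φ b := by
    simp only [Finset.sum_mul]
    rw [Finset.sum_comm]
    rw [Finset.sum_eq_single s']
    · have h3 := congrArg φ (hβ s' s')
      rw [if_pos rfl, map_sum] at h3
      rw [← h3, Finset.mul_sum]
      apply Finset.sum_congr rfl
      intro p _
      rw [map_mul]
      ring
    · intro s _ hs
      have h3 := congrArg φ (hβ s s')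
      rw [if_neg hs, map_sum, map_zero] at h3
      calc ∑ p : Fin N × Fin N, α s * φ (((Γ s).coeff p.1).coeff p.2) * φ (β p s')
          = α s * ∑ p : Fin N × Fin N, φ (((Γ s).coeff p.1).coeff p.2 * β p s') := by
            rw [Finset.mul_sum]
            apply Finset.sum_congr rfl
            intro p _
            rw [map_mul]
            ring
        _ = 0 := by rw [h3, mul_zero]
    · intro h; exact absurd (Finset.mem_univ s') h
  have h3 : ∑ p : Fin N × Fin N, (∑ s, α s * φ (((Γ s).coeff p.1).coeff p.2)) * φ (β p s') = 0 := by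
    apply Finset.sum_eq_zero
    intro p _
    rw [h1, zero_mul]
  rw [h3] at h2
  exact (mul_eq_zero.1 h2.symm).resolve_right hφ

end Pool.Agent.H20.EG
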