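import Pool.Agent.H20.EG.Loc

/-!
# Project EG (MP_a3214d): lifting functions from the special fibre
-/

set_option autoImplicit false
set_option linter.unusedSectionVars false

namespace Pool.Agent.H20.EG

open PowerSeries Pool.Agent.H47.Patch

variable {k : Type*} [Field k] {I : Type*}

section pp

variable {c : I → k} {w : I → RatFunc k}
  (hw : ∀ i, w i * algebraMap (Polynomial k) (RatFunc k) (Polynomial.X - Polynomial.C (c i)) = 1)

/-- the place at `c i` -/
noncomputable def plc (hw : ∀ i, w i * algebraMap (Polynomial k) (RatFunc k)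
    (Polynomial.X - Polynomial.C (c i)) = 1) (i : I) : Place k (RatFunc k) (w i) :=
  placeAt (c i) (w i) 1 (by simp) (by rw [hw, map_one])

theorem plc_O (i : I) : (plc hw i).O = Oc (c i) := rfl

include hw in
theorem w_ne (i : I) : w i ≠ 0 := (plc hw i).w_ne

include hw in
theorem w_inv (i : I) : (w i)⁻¹ = algebraMap (Polynomial k) (RatFunc k)
    (Polynomial.X - Polynomial.C (c i)) := inv_eq_of_mul_eq_one_right (hw i)

theorem poly_mem_Oc (p : Polynomial k) (x : k) :
    algebraMap (Polynomial k) (RatFunc k) p ∈ Oc x :=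
  ⟨p, 1, by simp, by rw [map_one, mul_one]⟩

theorem evc_poly (p : Polynomial k) (x : k) :
    evc x ⟨algebraMap (Polynomial k) (RatFunc k) p, poly_mem_Oc p x⟩ = p.eval x := by
  rw [evc_eq (p := p) (q := 1) (by simp) (by simp)]
  simp

theorem algebraMap_mem_Oc (a x : k) : algebraMap k (RatFunc k) a ∈ Oc x := by
  have := poly_mem_Oc (Polynomial.C a) x
  rwa [RatFunc.algebraMap_C, ← RatFunc.algebraMap_eq_C] at this

theorem eval_poly (p : Polynomial k) (x : k) :
    RatFunc.eval (RingHom.id k) x (algebraMap (Polynomial k) (RatFunc k) p) = p.eval x :=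
  evc_poly p x

theorem eval_const (a x : k) :
    RatFunc.eval (RingHom.id k) x (algebraMap k (RatFunc k) a) = a := by
  have := eval_poly (Polynomial.C a) x
  rwa [RatFunc.algebraMap_C, ← RatFunc.algebraMap_eq_C, Polynomial.eval_C] at this

theorem eval_add' {x : k} {u v : RatFunc k} (hu : u ∈ Oc x) (hv : v ∈ Oc x) :
    RatFunc.eval (RingHom.id k) x (u + v) =
      RatFunc.eval (RingHom.id k) x u + RatFunc.eval (RingHom.id k) x v :=
  map_add (evc x) ⟨u, hu⟩ ⟨v, hv⟩

theorem eval_sub' {x : k} {u v : RatFunc k} (hu : u ∈ Oc x) (hv : v ∈ Oc x) :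
    RatFunc.eval (RingHom.id k) x (u - v) =
      RatFunc.eval (RingHom.id k) x u - RatFunc.eval (RingHom.id k) x v :=
  map_sub (evc x) ⟨u, hu⟩ ⟨v, hv⟩

theorem eval_mul' {x : k} {u v : RatFunc k} (hu : u ∈ Oc x) (hv : v ∈ Oc x) :
    RatFunc.eval (RingHom.id k) x (u * v) =
      RatFunc.eval (RingHom.id k) x u * RatFunc.eval (RingHom.id k) x v :=
  map_mul (evc x) ⟨u, hu⟩ ⟨v, hv⟩

theorem eval_sum' {x : k} {J : Type*} (s : Finset J) (u : J → RatFunc k) (hu : ∀ j ∈ s, u j ∈ Oc x) :
    RatFunc.eval (RingHom.id k) x (∑ j ∈ s, u j) = ∑ j ∈ s, RatFunc.eval (RingHom.id k) x (u j) := by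
  classical
  induction s using Finset.induction_on with
  | empty =>
    rw [Finset.sum_empty, Finset.sum_empty]
    exact map_zero (evc x)
  | insert a s ha ih =>
    rw [Finset.sum_insert ha, Finset.sum_insert ha,
      eval_add' (hu a (Finset.mem_insert_self a s))
        (sum_mem fun j hj => hu j (Finset.mem_insert_of_mem hj)),
      ih fun j hj => hu j (Finset.mem_insert_of_mem hj)]

include hw in
theorem w_mul_mem {i : I} {u : RatFunc k} (hu : u ∈ Oc (c i))
    (h0 : RatFunc.eval (RingHom.id k) (c i) u = 0) : w i * u ∈ Oc (c i) := by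
  rw [mul_comm]
  exact (plc hw i).div ⟨u, hu⟩ h0

include hw in
theorem mem_of_w_mul {i : I} {u : RatFunc k} (hu : w i * u ∈ Oc (c i)) : u ∈ Oc (c i) := by
  have h1 : u = algebraMap (Polynomial k) (RatFunc k) (Polynomial.X - Polynomial.C (c i)) *
      (w i * u) := by
    rw [← mul_assoc, mul_comm _ (w i), hw, one_mul]
  rw [h1]
  exact mul_mem (poly_mem_Oc _ _) hu

include hw in
theorem exists_pp (i : I) (u : RatFunc k) : ∃ v ∈ Wi k w i, u - v ∈ Oc (c i) := by
  obtain ⟨M, hM⟩ := (plc hw i).frac u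
  rw [plc_O] at hM
  induction M generalizing u with
  | zero =>
    refine ⟨0, zero_mem _, ?_⟩
    rw [pow_zero, one_mul] at hM
    rw [sub_zero]
    exact hM
  | succ M ih =>
    set α := RatFunc.eval (RingHom.id k) (c i) ((w i)⁻¹ ^ (M + 1) * u) with hα
    have h1 : w i * ((w i)⁻¹ ^ (M + 1) * u - algebraMap k (RatFunc k) α) ∈ Oc (c i) := by
      apply w_mul_mem hw (sub_mem hM (algebraMap_mem_Oc _ _))
      rw [eval_sub' hM (algebraMap_mem_Oc _ _), eval_const, sub_self]
    have hwi := w_ne hw i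
    have h2 : w i * ((w i)⁻¹ ^ (M + 1) * u - algebraMap k (RatFunc k) α) =
        (w i)⁻¹ ^ M * (u - algebraMap k (RatFunc k) α * w i ^ (M + 1)) := by
      have hx : w i * (w i)⁻¹ = 1 := mul_inv_cancel₀ hwi
      have hxM : (w i)⁻¹ ^ M * w i ^ M = 1 := by
        rw [← mul_pow, inv_mul_cancel₀ hwi, one_pow]
      rw [pow_succ, pow_succ]
      linear_combination ((w i)⁻¹ ^ M * u) * hx + (algebraMap k (RatFunc k) α * w i) * hxM
    rw [h2] at h1
    obtain ⟨v, hv, hv'⟩ := ih _ h1
    refine ⟨v + algebraMap k (RatFunc k) α * w i ^ (M + 1), add_mem hv (mul_mem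
      (algebraMap_mem_Wi k w i α) (pow_mem (w_mem_Wi k w i) _)), ?_⟩
    convert hv' using 1
    ring

include hw in
theorem w_mem_Oc (hc : Function.Injective c) {i j : I} (h : i ≠ j) : w i ∈ Oc (c j) := by
  refine ⟨1, Polynomial.X - Polynomial.C (c i), ?_, ?_⟩
  · rw [Polynomial.eval_sub, Polynomial.eval_X, Polynomial.eval_C]
    exact sub_ne_zero.2 (fun h' => h (hc h').symm)
  · rw [hw, map_one]

include hw in
theorem Wi_le_Oc (hc : Function.Injective c) {i j : I} (h : i ≠ j) {u : RatFunc k}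
    (hu : u ∈ Wi k w i) : u ∈ Oc (c j) := by
  rw [mem_Wi] at hu
  induction hu using Algebra.adjoin_induction with
  | mem x hx =>
    obtain rfl : x = w i := hx
    exact w_mem_Oc hw hc h
  | algebraMap a => exact algebraMap_mem_Oc _ _
  | add x y _ _ hx hy => exact add_mem hx hy
  | mul x y _ _ hx hy => exact mul_mem hx hy

include hw in
theorem Wi_le_Md [Fintype I] {i : I} {u : RatFunc k} (hu : u ∈ Wi k w i) : u ∈ Md c 0 := by
  rw [mem_Wi] at hu
  induction hu using Algebra.adjoin_induction with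
  | mem x hx =>
    obtain rfl : x = w i := hx
    exact w_mem_Md (hw i)
  | algebraMap a => exact const_mem_Md _ _
  | add x y _ _ hx hy => exact add_mem hx hy
  | mul x y _ _ hx hy => exact Md_zero_mul hx hy

end pp

section lift

variable [CharZero k] [Fintype I] {Ω : Type*}

theorem exists_lift {c : I → k} (hc : Function.Injective c) {w : I → RatFunc k}
    (hw : ∀ i, w i * algebraMap (Polynomial k) (RatFunc k) (Polynomial.X - Polynomial.C (c i)) = 1)
    (n : I → ℕ) (hn : ∀ i, 0 < n i) (ζ : I → k) (hζ : ∀ i, IsPrimitiveRoot (ζ i) (n i))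
    (γ : I → Ω → Ω) (hγ : ∀ i ω, (γ i)^[n i] ω = ω) (d : ℕ) (hd : Fintype.card I ≤ d + 1)
    (h0 : Ω → Polynomial k) (hdeg : ∀ ω, (h0 ω).natDegree ≤ d)
    (hcomp : ∀ i ω, (h0 (γ i ω)).eval (c i) = (h0 ω).eval (c i)) :
    ∃ h : Ω → PowerSeries (RatFunc k), (∀ ω, h ω ∈ PM c d) ∧
      (∀ ω, constantCoeff (h ω) = algebraMap (Polynomial k) (RatFunc k) (h0 ω)) ∧
      ∀ i ω, ∃ a : ℕ → PowerSeries (RatFunc k), (∀ j, j < n i → a j ∈ PS (Oc (c i))) ∧
        (∀ j, 0 < j → j < n i → ∀ t, w i * coeff t (a j) ∈ Oc (c i)) ∧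
        ∀ l, h ((γ i)^[l] ω) = ∑ j ∈ Finset.range (n i),
          (C (algebraMap k (RatFunc k) (ζ i ^ l)) * rt (n i) (w i)) ^ j * a j := by
  classical
  -- the operators
  let D : I → (Ω → (RatFunc k)⟦X⟧) → Ω → ℕ → (RatFunc k)⟦X⟧ := fun i f m j =>
    dft (ζ i) (n i) (fun l => f ((γ i)^[l] m)) j
  let U : I → (Ω → (RatFunc k)⟦X⟧) → Ω → (RatFunc k)⟦X⟧ := fun i f m =>
    ∑ j ∈ Finset.range (n i), rt' (n i) (w i) ^ j * D i f m j
  let U' : I → (Ω → (RatFunc k)⟦X⟧) → Ω → (RatFunc k)⟦X⟧ := fun i f m =>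
    ∑ j ∈ Finset.range (n i), tl (rt' (n i) (w i) ^ j) * D i f m j
  have hper : ∀ i (f : Ω → (RatFunc k)⟦X⟧) m, ∀ l, (fun l => f ((γ i)^[l] m)) (l + n i)
      = (fun l => f ((γ i)^[l] m)) l := by
    intro i f m l
    simp only
    rw [Function.iterate_add_apply, hγ]
  have hc1 : ∀ i j, constantCoeff (rt' (n i) (w i) ^ j) = 1 := by
    intro i j
    rw [map_pow, rt', constantCoeff_bin, one_pow]
  have hU : ∀ i f m, U i f m = f m + X * U' i f m := by
    intro i f m
    have h1 : ∀ j, rt' (n i) (w i) ^ j = 1 + X * tl (rt' (n i) (w i) ^ j) := by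
      intro j
      conv_lhs => rw [eq_tl (rt' (n i) (w i) ^ j), hc1, map_one]
    have h2 : ∑ j ∈ Finset.range (n i), D i f m j = f m := by
      have := dft_inv (φ := fun l => f ((γ i)^[l] m)) (hζ i) (hn i) (hper i f m) 0
      simpa using this
    simp only [U, U']
    rw [Finset.mul_sum]
    conv_rhs => rw [← h2]
    rw [← Finset.sum_add_distrib]
    apply Finset.sum_congr rfl
    intro j _
    conv_lhs => rw [h1 j]
    ring
  have hUshift : ∀ i f m l, U i f ((γ i)^[l] m) = ∑ j ∈ Finset.range (n i),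
      ζ i ^ (j * l) • (rt' (n i) (w i) ^ j * D i f m j) := by
    intro i f m l
    apply Finset.sum_congr rfl
    intro j _
    have h1 : D i f ((γ i)^[l] m) j = ζ i ^ (j * l) • D i f m j := by
      rw [← dft_shift (φ := fun l => f ((γ i)^[l] m)) (hζ i) (hn i) (hper i f m) l j]
      simp only [D]
      congr 1
      ext l' : 1
      rw [← Function.iterate_add_apply]
    rw [h1, mul_smul_comm]
  -- choice of the principal parts
  choose p hp1 hp2 using fun (i : I) (u : RatFunc k) => exists_pp hw i u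
  let z : (Ω → (RatFunc k)⟦X⟧) → I → ℕ → Ω → RatFunc k := fun f i t m =>
    coeff t (U' i f m) - ∑ i', p i' (coeff t (U' i' f m))
  let bs : I → Polynomial k := Lagrange.basis Finset.univ c
  let T : (Ω → (RatFunc k)⟦X⟧) → Ω → (RatFunc k)⟦X⟧ := fun f m =>
    mk fun t => - ∑ i, p i (coeff t (U' i f m)) -
      ∑ i, algebraMap (Polynomial k) (RatFunc k) (Polynomial.C
        (RatFunc.eval (RingHom.id k) (c i) (z f i t m)) * bs i)
  have hcong : ∀ r (f f' : Ω → (RatFunc k)⟦X⟧), (∀ m t, t ≤ r → coeff t (f m) = coeff t (f' m)) →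
      ∀ i m t, t ≤ r → coeff t (U' i f m) = coeff t (U' i f' m) := by
    intro r f f' h i m t ht
    simp only [U', map_sum]
    apply Finset.sum_congr rfl
    intro j _
    rw [coeff_mul, coeff_mul]
    apply Finset.sum_congr rfl
    rintro ⟨a, b⟩ hab
    rw [Finset.HasAntidiagonal.mem_antidiagonal] at hab
    simp only at hab ⊢
    congr 1
    simp only [D, dft, smul_eq_C_mul', coeff_C_mul, map_sum]
    congr 1
    apply Finset.sum_congr rfl
    intro l _
    rw [h _ b (by omega)]
  obtain ⟨f, hf⟩ := exists_fix T (by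
    intro r f f' h m t ht
    have h1 := fun i => hcong r f f' h i m t ht
    simp only [T, coeff_mk, z, h1]) (fun m => C (algebraMap (Polynomial k) (RatFunc k) (h0 m)))
  have hbs : ∀ i, (bs i).natDegree ≤ d := by
    intro i
    have h1 : (bs i).degree = ((Finset.univ : Finset I).card - 1 : ℕ) :=
      Lagrange.degree_basis hc.injOn (Finset.mem_univ i)
    have h2 := Polynomial.natDegree_eq_of_degree_eq_some h1
    rw [h2, Finset.card_univ]
    omega
  have hbs1 : ∀ i, (bs i).eval (c i) = 1 := fun i =>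
    Lagrange.eval_basis_self hc.injOn (Finset.mem_univ i)
  have hbs0 : ∀ i j, i ≠ j → (bs i).eval (c j) = 0 := fun i j h =>
    Lagrange.eval_basis_of_ne h (Finset.mem_univ j)
  have hf0 : ∀ m, coeff 0 (f m) = algebraMap (Polynomial k) (RatFunc k) (h0 m) := by
    intro m
    rw [hf m, map_add, coeff_zero_X_mul, add_zero, coeff_zero_C]
  have hfs : ∀ t m, coeff (t + 1) (f m) = coeff t (T f m) := by
    intro t m
    conv_lhs => rw [hf m]
    rw [map_add, coeff_succ_X_mul, coeff_C, if_neg (by omega), zero_add]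
  -- the weights
  have hfM : ∀ m, f m ∈ PM c d := by
    intro m t
    cases t with
    | zero =>
      rw [hf0]
      exact poly_mem_Md (hdeg m)
    | succ t =>
      rw [hfs]
      simp only [T, coeff_mk]
      refine sub_mem (neg_mem (sum_mem fun i _ => ?_)) (sum_mem fun i _ => ?_)
      · exact Md_mono (Nat.zero_le d) (Wi_le_Md hw (hp1 i _))
      · exact poly_mem_Md ((Polynomial.natDegree_C_mul_le _ _).trans (hbs i))
  -- regularity
  have hzO : ∀ i t m, z f i t m ∈ Oc (c i) := by
    intro i t m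
    simp only [z]
    rw [← Finset.add_sum_erase Finset.univ _ (Finset.mem_univ i), ← sub_sub]
    refine sub_mem (hp2 i _) (sum_mem fun i' hi' => ?_)
    exact Wi_le_Oc hw hc (Finset.ne_of_mem_erase hi') (hp1 i' _)
  have hcomp' : ∀ i ω l, (h0 ((γ i)^[l] ω)).eval (c i) = (h0 ω).eval (c i) := by
    intro i ω l
    induction l with
    | zero => rfl
    | succ l ih => rw [Function.iterate_succ_apply', hcomp, ih]
  have key : ∀ i ω t, ∃ v : k, ∀ l, w i * (coeff t (U i f ((γ i)^[l] ω)) -
      algebraMap k (RatFunc k) v) ∈ Oc (c i) := by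
    intro i ω t
    cases t with
    | zero =>
      refine ⟨(h0 ω).eval (c i), fun l => ?_⟩
      rw [hU, map_add, coeff_zero_X_mul, add_zero, hf0]
      apply w_mul_mem hw (sub_mem (poly_mem_Oc _ _) (algebraMap_mem_Oc _ _))
      rw [eval_sub' (poly_mem_Oc _ _) (algebraMap_mem_Oc _ _), eval_const, eval_poly, hcomp',
        sub_self]
    | succ t =>
      refine ⟨0, fun l => ?_⟩
      rw [map_zero, sub_zero, hU, map_add, coeff_succ_X_mul, hfs]
      set ω' := (γ i)^[l] ω with hω'
      have h1 : coeff t (T f ω') + coeff t (U' i f ω') = z f i t ω' -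
          ∑ i, algebraMap (Polynomial k) (RatFunc k) (Polynomial.C
            (RatFunc.eval (RingHom.id k) (c i) (z f i t ω')) * bs i) := by
        simp only [T, coeff_mk, z]
        ring
      rw [h1]
      have h2 : ∑ i, algebraMap (Polynomial k) (RatFunc k) (Polynomial.C
            (RatFunc.eval (RingHom.id k) (c i) (z f i t ω')) * bs i) ∈ Oc (c i) :=
        sum_mem fun i' _ => poly_mem_Oc _ _
      apply w_mul_mem hw (sub_mem (hzO i t ω') h2)
      rw [eval_sub' (hzO i t ω') h2, eval_sum' _ _ (fun i' _ => poly_mem_Oc _ _)]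
      simp only [eval_poly, Polynomial.eval_mul, Polynomial.eval_C]
      rw [Finset.sum_eq_single i, hbs1, mul_one, sub_self]
      · intro i' _ hi'
        rw [hbs0 i' i hi', mul_zero]
      · intro h
        exact absurd (Finset.mem_univ i) h
  have hUO : ∀ i ω t l, coeff t (U i f ((γ i)^[l] ω)) ∈ Oc (c i) := by
    intro i ω t l
    obtain ⟨v, hv⟩ := key i ω t
    have h1 := mem_of_w_mul hw (hv l)
    have h2 := add_mem h1 (algebraMap_mem_Oc v (c i))
    rwa [sub_add_cancel] at h2
  refine ⟨f, hfM, ?_, ?_⟩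
  · intro m
    rw [← coeff_zero_eq_constantCoeff_apply, hf0]
  · intro i m
    have hdft : ∀ j, j < n i → rt' (n i) (w i) ^ j * D i f m j =
        dft (ζ i) (n i) (fun l => U i f ((γ i)^[l] m)) j := by
      intro j hj
      have h1 := dft_dft (hζ i) (hn i) (β := fun j => rt' (n i) (w i) ^ j * D i f m j) j hj
      simp only [hUshift]
      exact h1.symm
    refine ⟨fun j => rt' (n i) (w i) ^ j * D i f m j, ?_, ?_, ?_⟩
    · intro j hj
      show rt' (n i) (w i) ^ j * D i f m j ∈ _
      rw [hdft j hj]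
      exact dft_mem (fun x => algebraMap_mem_Oc x _) _ _ (fun l t => hUO i m t l) j
    · intro j hj0 hj t
      show w i * coeff t (rt' (n i) (w i) ^ j * D i f m j) ∈ _
      rw [hdft j hj]
      obtain ⟨v, hv⟩ := key i m t
      have hsum0 : ∑ l ∈ Finset.range (n i), (ζ i ^ (j * l))⁻¹ = 0 := by
        have h1 := geom_root (hζ i) (hn i) 0 j
        rw [Nat.zero_mod, Nat.mod_eq_of_lt hj, if_neg (by omega)] at h1
        rw [← h1]
        apply Finset.sum_congr rfl
        intro l _
        rw [mul_zero, pow_zero, one_mul, mul_comm j l]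
      have h2 : w i * coeff t (dft (ζ i) (n i) (fun l => U i f ((γ i)^[l] m)) j) =
          algebraMap k (RatFunc k) ((n i : k)⁻¹) * ∑ l ∈ Finset.range (n i),
            algebraMap k (RatFunc k) ((ζ i ^ (j * l))⁻¹) * (w i * (coeff t (U i f ((γ i)^[l] m)) -
              algebraMap k (RatFunc k) v)) := by
        have h3 : ∑ l ∈ Finset.range (n i),
            algebraMap k (RatFunc k) ((ζ i ^ (j * l))⁻¹) * (w i * (coeff t (U i f ((γ i)^[l] m)) -
              algebraMap k (RatFunc k) v)) = (∑ l ∈ Finset.range (n i),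
            algebraMap k (RatFunc k) ((ζ i ^ (j * l))⁻¹) * (w i * coeff t (U i f ((γ i)^[l] m)))) -
            w i * algebraMap k (RatFunc k) v * algebraMap k (RatFunc k)
              (∑ l ∈ Finset.range (n i), (ζ i ^ (j * l))⁻¹) := by
          rw [map_sum, Finset.mul_sum, ← Finset.sum_sub_distrib]
          apply Finset.sum_congr rfl
          intro l _
          ring
        rw [h3, hsum0, map_zero, mul_zero, sub_zero, dft, smul_eq_C_mul', coeff_C_mul, map_sum,
          Finset.mul_sum, Finset.mul_sum, Finset.mul_sum]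
        apply Finset.sum_congr rfl
        intro l _
        rw [smul_eq_C_mul', coeff_C_mul]
        ring
      rw [h2]
      exact mul_mem (algebraMap_mem_Oc _ _) (sum_mem fun l _ =>
        mul_mem (algebraMap_mem_Oc _ _) (hv l))
    · intro l
      have h1 := dft_inv (φ := fun l => f ((γ i)^[l] m)) (hζ i) (hn i) (hper i f m) l
      rw [← h1]
      apply Finset.sum_congr rfl
      intro j _
      rw [smul_eq_C_mul', mul_pow, ← map_pow, ← map_pow, ← pow_mul, mul_comm l j]
      have h2 : rt (n i) (w i) ^ j * rt' (n i) (w i) ^ j = 1 := by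
        rw [← mul_pow, rt_mul_rt', one_pow]
      calc C (algebraMap k (RatFunc k) (ζ i ^ (j * l))) * D i f m j
          = C (algebraMap k (RatFunc k) (ζ i ^ (j * l))) * (1 * D i f m j) := by rw [one_mul]
        _ = _ := by rw [← h2]; ring

end lift

end Pool.Agent.H20.EG
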