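import Pool.Agent.H47.Patch.TRing

/-!
# Project EG (MP_a3214d): symmetric functions and interpolation in a translation invariant ring
-/

set_option autoImplicit false
set_option linter.unusedSectionVars false

open Polynomial

namespace Pool.Agent.H20.EG

open Pool.Agent.H47.Patch

variable {A : Type*} [CommRing A] [IsDomain A] {N : Type*} [Group N] {T : Subring (N → A)} {S : Set A}
  (htr : ∀ h ∈ T, ∀ n : N, (fun m => h (n * m)) ∈ T)
  (hcst : ∀ c : A, (fun _ : N => c) ∈ T → c ∈ S)

include hcst in
theorem coeff_mem_of_eval {Φ : Polynomial T} {Ψ : Polynomial A}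
    (h : ∀ m, Φ.map (evT _ m) = Ψ) (j : ℕ) : Ψ.coeff j ∈ S := by
  apply hcst
  have : (fun _ => Ψ.coeff j) = (Φ.coeff j : N → A) := by
    funext m
    rw [← h m, coeff_map]; rfl
  rw [this]
  exact (Φ.coeff j).2

variable [Fintype N]

include htr hcst in
theorem Phi_coeff_mem {f : N → A} (hf : f ∈ T) (j : ℕ) : (Phi f).coeff j ∈ S := by
  let fT : N → T := fun n => ⟨fun m => f (n * m), htr f hf n⟩
  apply coeff_mem_of_eval hcst (Φ := ∏ n, (X - C (fT n)))
  intro m
  rw [Polynomial.map_prod]
  simp only [Polynomial.map_sub, map_X, map_C]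
  exact Fintype.prod_equiv (Equiv.mulRight m) _ _ (fun n => rfl)

include htr in
theorem Dif_mem [DecidableEq N] {f : N → A} (hf : f ∈ T) : Dif f ∈ T := by
  have : Dif f = ∏ n ∈ Finset.univ.erase (1 : N), (f - fun m => f (n * m)) := by
    funext m
    rw [Dif_eq, Finset.prod_apply]
    rfl
  rw [this]
  exact prod_mem fun n _ => sub_mem hf (htr f hf n)

include htr in
theorem Oth_mem [DecidableEq N] {D : N → A} (hD : D ∈ T) : Oth D ∈ T := by
  have : Oth D = ∏ n ∈ Finset.univ.erase (1 : N), (fun m => D (n * m)) := by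
    funext m
    rw [Oth, Finset.prod_apply]
    refine Finset.prod_bij' (fun m' _ => m' * m⁻¹) (fun n _ => n * m) ?_ ?_ ?_ ?_ ?_
    · intro a ha
      simp only [Finset.mem_erase, Finset.mem_univ, and_true] at ha ⊢
      intro h
      apply ha
      exact eq_of_mul_inv_eq_one h
    · intro a ha
      simp only [Finset.mem_erase, Finset.mem_univ, and_true] at ha ⊢
      intro h
      apply ha
      exact mul_eq_right.1 h
    · intro a _; group
    · intro a _; group
    · intro a _
      congr 1
      group
  rw [this]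
  exact prod_mem fun n _ => htr D hD n

include htr hcst in
theorem lagrange [DecidableEq N] {f u : N → A} (hf : f ∈ T) (hu : u ∈ T) :
    ∃ Λ : Polynomial A, (∀ j, Λ.coeff j ∈ S) ∧ (Λ.natDegree < Fintype.card N) ∧
      ∀ m, (∏ m', Dif f m') * u m = Λ.eval (f m) := by
  set v : N → A := u * Oth (Dif f) with hv
  have hvT : v ∈ T := mul_mem hu (Oth_mem htr (Dif_mem htr hf))
  let fT : N → T := fun n => ⟨fun m => f (n * m), htr f hf n⟩
  let vT : N → T := fun n => ⟨fun m => v (n * m), htr v hvT n⟩
  let Λ : Polynomial A := ∑ m, C (v m) * ∏ m' ∈ Finset.univ.erase m, (X - C (f m'))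
  refine ⟨Λ, ?_, ?_, ?_⟩
  · apply coeff_mem_of_eval hcst
      (Φ := ∑ n, C (vT n) * ∏ n' ∈ Finset.univ.erase n, (X - C (fT n')))
    intro m
    simp only [Polynomial.map_sum, Polynomial.map_mul, Polynomial.map_prod, Polynomial.map_sub,
      map_X, map_C]
    refine Fintype.sum_equiv (Equiv.mulRight m) _ _ (fun n => ?_)
    congr 1
    refine Finset.prod_bij' (fun n' _ => n' * m) (fun m' _ => m' * m⁻¹) ?_ ?_ ?_ ?_ ?_
    · intro a ha
      simp only [Finset.mem_erase, Finset.mem_univ, and_true, Equiv.coe_mulRight, ne_eq,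
        mul_left_inj] at ha ⊢
      exact ha
    · intro a ha
      simp only [Finset.mem_erase, Finset.mem_univ, and_true, Equiv.coe_mulRight, ne_eq] at ha ⊢
      intro h
      apply ha
      rw [← h]; group
    · intro a _; group
    · intro a _; group
    · intro a _
      rfl
  · have hpos : 0 < Fintype.card N := Fintype.card_pos
    have h1 : Λ.natDegree ≤ Fintype.card N - 1 := by
      refine natDegree_sum_le_of_forall_le _ _ fun m _ => ?_
      refine (natDegree_C_mul_le _ _).trans ?_
      refine (natDegree_prod_le _ _).trans ?_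
      refine (Finset.sum_le_sum fun i _ => natDegree_X_sub_C_le (f i)).trans ?_
      rw [Finset.sum_const, smul_eq_mul, mul_one, Finset.card_erase_of_mem (Finset.mem_univ _),
        Finset.card_univ]
    omega
  · intro m
    have h1 : Λ.eval (f m) = v m * Dif f m := by
      simp only [Λ, eval_finsetSum, eval_mul, eval_C, eval_prod, eval_sub, eval_X]
      rw [Finset.sum_eq_single m]
      · rfl
      · intro b _ hb
        rw [Finset.prod_eq_zero (Finset.mem_erase.2 ⟨hb.symm, Finset.mem_univ m⟩) (sub_self _),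
          mul_zero]
      · intro h; exact absurd (Finset.mem_univ m) h
    rw [h1, hv, ← mul_Oth (Dif f) m]
    simp only [Pi.mul_apply]
    ring

include htr hcst in
theorem prod_Dif_mem [DecidableEq N] {f : N → A} (hf : f ∈ T) : (∏ m', Dif f m') ∈ S := by
  apply hcst
  have h1 : (fun _ : N => ∏ m', Dif f m') = Dif f * Oth (Dif f) := by
    funext m
    rw [Pi.mul_apply, mul_Oth]
  rw [h1]
  exact mul_mem (Dif_mem htr hf) (Oth_mem htr (Dif_mem htr hf))

end Pool.Agent.H20.EG
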