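import Pool.Agent.H20.EG.Pole
import Pool.Agent.H20.EG.Sym
import Pool.Agent.H47.Patch.Patched

/-!
# Project EG (MP_a3214d): the integral patched ring
-/

set_option autoImplicit false
set_option linter.unusedSectionVars false

open Polynomial

namespace Pool.Agent.H20.EG

open Pool.Agent.H47.Patch

/-- `⌈j/n⌉` -/
def ce (n j : ℕ) : ℕ := (j + (n - 1)) / n

theorem ce_le_iff {n j m : ℕ} (hn : 0 < n) : ce n j ≤ m ↔ j ≤ n * m := by
  rw [ce, ← Nat.lt_succ_iff, Nat.div_lt_iff_lt_mul hn, Nat.succ_mul, mul_comm m n]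
  omega

theorem ce_add {n : ℕ} (hn : 0 < n) (a b : ℕ) : ce n (a + b) ≤ ce n a + ce n b := by
  rw [ce_le_iff hn, mul_add]
  exact add_le_add ((ce_le_iff hn).1 le_rfl) ((ce_le_iff hn).1 le_rfl)

theorem ce_mul {n : ℕ} (hn : 0 < n) (a : ℕ) : ce n (n * a) = a := by
  apply le_antisymm
  · rw [ce_le_iff hn]
  · have h := (ce_le_iff (m := ce n (n * a)) hn).1 le_rfl
    exact Nat.le_of_mul_le_mul_left h hn

theorem ce_zero {n : ℕ} (hn : 0 < n) : ce n 0 = 0 := by
  have := ce_mul hn 0
  rwa [mul_zero] at this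

theorem ce_one {n j : ℕ} (hj : 0 < j) (hjn : j < n) : ce n j = 1 := by
  have hn : 0 < n := by omega
  apply le_antisymm
  · rw [ce_le_iff hn]
    omega
  · by_contra h
    have h1 : ce n j ≤ 0 := by omega
    rw [ce_le_iff hn] at h1
    omega

section filt

variable {R : Type*} [CommRing R] (O : Subring R) (w u : R) (hwu : w * u = 1) (hu : u ∈ O)
  {n : ℕ} (hn : 0 < n)

include hwu hu in
theorem w_pow_mul_mem {a b : ℕ} (hab : a ≤ b) {x : R} (h : w ^ b * x ∈ O) : w ^ a * x ∈ O := by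
  have h1 : w ^ a * x = u ^ (b - a) * (w ^ b * x) := by
    have h2 : w ^ b = w ^ (b - a) * w ^ a := by rw [← pow_add, Nat.sub_add_cancel hab]
    have h3 : u ^ (b - a) * w ^ (b - a) = 1 := by rw [← mul_pow, mul_comm, hwu, one_pow]
    rw [h2]
    calc w ^ a * x = (u ^ (b - a) * w ^ (b - a)) * (w ^ a * x) := by rw [h3, one_mul]
      _ = _ := by ring
  rw [h1]
  exact mul_mem (pow_mem hu _) h

/-- polynomials in the local generator whose values are integral -/
def Fi (n : ℕ) (hn : 0 < n) (hwu : w * u = 1) (hu : u ∈ O) :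
    Subring (Polynomial (PowerSeries R)) where
  carrier := {Q | ∀ j t, w ^ ce n j * PowerSeries.coeff t (Q.coeff j) ∈ O}
  mul_mem' := by
    intro Q Q' hQ hQ' j t
    rw [Polynomial.coeff_mul, map_sum, Finset.mul_sum]
    refine sum_mem fun p hp => ?_
    rw [Finset.HasAntidiagonal.mem_antidiagonal] at hp
    rw [PowerSeries.coeff_mul, Finset.mul_sum]
    refine sum_mem fun q _ => ?_
    refine w_pow_mul_mem O w u hwu hu (b := ce n p.1 + ce n p.2) ?_ ?_
    · rw [← hp]
      exact ce_add hn _ _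
    · rw [pow_add]
      have := mul_mem (hQ p.1 q.1) (hQ' p.2 q.2)
      convert this using 1
      ring
  one_mem' := by
    intro j t
    rw [Polynomial.coeff_one]
    split_ifs with h
    · subst h
      rw [ce_zero hn, pow_zero, one_mul, PowerSeries.coeff_one]
      split_ifs
      · exact one_mem _
      · exact zero_mem _
    · rw [map_zero, mul_zero]
      exact zero_mem _
  zero_mem' := by
    intro j t
    rw [Polynomial.coeff_zero, map_zero, mul_zero]
    exact zero_mem _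
  add_mem' := by
    intro Q Q' hQ hQ' j t
    rw [Polynomial.coeff_add, map_add, mul_add]
    exact add_mem (hQ j t) (hQ' j t)
  neg_mem' := by
    intro Q hQ j t
    rw [Polynomial.coeff_neg, map_neg, mul_neg]
    exact neg_mem (hQ j t)

variable {O w u}

theorem mem_Fi {hwu : w * u = 1} {hu : u ∈ O} {Q : Polynomial (PowerSeries R)} :
    Q ∈ Fi O w u n hn hwu hu ↔ ∀ j t, w ^ ce n j * PowerSeries.coeff t (Q.coeff j) ∈ O := Iff.rfl

theorem coeff_mem_of_mem_Fi {Q : Polynomial (PowerSeries R)}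
    (hQ : Q ∈ Fi O w u n hn hwu hu) (j : ℕ) : Q.coeff j ∈ PS O := by
  intro t
  have := w_pow_mul_mem O w u hwu hu (Nat.zero_le _) (hQ j t)
  rwa [pow_zero, one_mul] at this

include hu in
theorem term_mem {Q : Polynomial (PowerSeries R)} (hQ : Q ∈ Fi O w u n hn hwu hu)
    {y : PowerSeries R} (hy : y ^ n = 1 + PowerSeries.C w * PowerSeries.X) {j : ℕ} (hj : n ∣ j) :
    Q.coeff j * y ^ j ∈ PS O := by
  obtain ⟨a, rfl⟩ := hj
  have h1 : Q.coeff (n * a) * y ^ (n * a) = (PowerSeries.C (w ^ a) * Q.coeff (n * a)) *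
      (PowerSeries.C u + PowerSeries.X) ^ a := by
    rw [pow_mul, hy]
    have h2 : (1 : PowerSeries R) + PowerSeries.C w * PowerSeries.X =
        PowerSeries.C w * (PowerSeries.C u + PowerSeries.X) := by
      rw [mul_add, ← map_mul, hwu, map_one]
    rw [h2, mul_pow, map_pow]
    ring
  rw [h1]
  refine mul_mem (fun t => ?_) (pow_mem (add_mem (C_mem_PS hu) X_mem_PS) _)
  rw [PowerSeries.coeff_C_mul]
  have := hQ (n * a) t
  rwa [ce_mul hn] at this

end filt

section loc

variable {k : Type*} [Field k] [CharZero k] {R : Type*} [Field R] [Algebra k R]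
  {N : Type*} [Group N]

/-- the local condition -/
def Lc (F : Subring (Polynomial (PowerSeries R))) (g : N) (ζ : k) (y : PowerSeries R)
    (h : N → PowerSeries R) : Prop :=
  ∀ m, ∃ Q ∈ F, ∀ l : ℕ,
    h (m * g ^ l) = Q.eval (algebraMap k (PowerSeries R) (ζ ^ l) * y)

variable {I : Type*}

/-- the integral patched ring -/
def TI (AA : Subring (PowerSeries R)) (F : I → Subring (Polynomial (PowerSeries R))) (g : I → N)
    (ζ : I → k) (y : I → PowerSeries R) : Subring (N → PowerSeries R) where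
  carrier := {h | (∀ m, h m ∈ AA) ∧ ∀ i, Lc (F i) (g i) (ζ i) (y i) h}
  mul_mem' := by
    rintro a b ⟨ha, ha'⟩ ⟨hb, hb'⟩
    refine ⟨fun m => mul_mem (ha m) (hb m), fun i m => ?_⟩
    obtain ⟨P, hPF, hP⟩ := ha' i m
    obtain ⟨Q, hQF, hQ⟩ := hb' i m
    refine ⟨P * Q, mul_mem hPF hQF, fun l => ?_⟩
    rw [eval_mul, ← hP, ← hQ]; rfl
  one_mem' := ⟨fun m => one_mem _, fun i m => ⟨1, one_mem _, fun l => by simp⟩⟩
  add_mem' := by
    rintro a b ⟨ha, ha'⟩ ⟨hb, hb'⟩
    refine ⟨fun m => add_mem (ha m) (hb m), fun i m => ?_⟩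
    obtain ⟨P, hPF, hP⟩ := ha' i m
    obtain ⟨Q, hQF, hQ⟩ := hb' i m
    refine ⟨P + Q, add_mem hPF hQF, fun l => ?_⟩
    rw [eval_add, ← hP, ← hQ]; rfl
  zero_mem' := ⟨fun m => zero_mem _, fun i m => ⟨0, zero_mem _, fun l => by simp⟩⟩
  neg_mem' := by
    rintro a ⟨ha, ha'⟩
    refine ⟨fun m => neg_mem (ha m), fun i m => ?_⟩
    obtain ⟨P, hPF, hP⟩ := ha' i m
    refine ⟨-P, neg_mem hPF, fun l => ?_⟩
    rw [eval_neg, ← hP]; rfl

variable {AA : Subring (PowerSeries R)} {F : I → Subring (Polynomial (PowerSeries R))} {g : I → N}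
  {ζ : I → k} {y : I → PowerSeries R}

theorem TI_translate (h : N → PowerSeries R) (hh : h ∈ TI AA F g ζ y) (n : N) :
    (fun m => h (n * m)) ∈ TI AA F g ζ y := by
  refine ⟨fun m => hh.1 _, fun i m => ?_⟩
  obtain ⟨P, hPF, hP⟩ := hh.2 i (n * m)
  exact ⟨P, hPF, fun l => by rw [← hP, mul_assoc]⟩

theorem mem_of_const {F : Subring (Polynomial (PowerSeries R))} {B : Subring (PowerSeries R)}
    {g : N} {ζ : k} {y : PowerSeries R} {n : ℕ} (hn : 0 < n)
    (hζ : IsPrimitiveRoot ζ n) (hk : ∀ c : k, algebraMap k (PowerSeries R) c ∈ B)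
    (hF : ∀ Q ∈ F, ∀ j, n ∣ j → Q.coeff j * y ^ j ∈ B) {c : PowerSeries R}
    (h : Lc F g ζ y (fun _ => c)) : c ∈ B := by
  obtain ⟨Q, hQF, hQ⟩ := h 1
  have h1 : ∀ l, c = ∑ j ∈ Q.support, Q.coeff j *
      (algebraMap k (PowerSeries R) (ζ ^ l) * y) ^ j := by
    intro l
    have := hQ l
    rw [eval_eq_sum, Polynomial.sum] at this
    exact this
  have hn' : (n : k) ≠ 0 := by exact_mod_cast hn.ne'
  have h2 : (n : PowerSeries R) * c = ∑ j ∈ Q.support, Q.coeff j *
      (algebraMap k (PowerSeries R) (if j % n = 0 then (n : k) else 0) * y ^ j) := by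
    calc (n : PowerSeries R) * c = ∑ l ∈ Finset.range n, c := by simp
      _ = ∑ l ∈ Finset.range n, ∑ j ∈ Q.support,
          Q.coeff j * (algebraMap k (PowerSeries R) (ζ ^ l) * y) ^ j :=
          Finset.sum_congr rfl fun l _ => h1 l
      _ = ∑ j ∈ Q.support, ∑ l ∈ Finset.range n,
          Q.coeff j * (algebraMap k (PowerSeries R) (ζ ^ l) * y) ^ j := Finset.sum_comm
      _ = _ := by
        apply Finset.sum_congr rfl
        intro j _
        have h3 := geom_root hζ hn j 0
        simp only [mul_zero, pow_zero, inv_one, mul_one, Nat.zero_mod] at h3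
        have h4 : (if j % n = 0 then (n : k) else 0) = ∑ l ∈ Finset.range n, ζ ^ (l * j) := by
          exact h3.symm
        rw [h4, map_sum, Finset.sum_mul, Finset.mul_sum]
        apply Finset.sum_congr rfl
        intro l _
        rw [mul_pow, ← map_pow, ← pow_mul]
  have h3 : c = algebraMap k (PowerSeries R) (n : k)⁻¹ * ((n : PowerSeries R) * c) := by
    have : (n : PowerSeries R) = algebraMap k (PowerSeries R) (n : k) := by simp
    rw [this, ← mul_assoc, ← map_mul, inv_mul_cancel₀ hn', map_one, one_mul]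
  rw [h3, h2]
  refine mul_mem (hk _) (sum_mem fun j _ => ?_)
  by_cases hj : j % n = 0
  · rw [if_pos hj]
    have h5 : Q.coeff j * (algebraMap k (PowerSeries R) (n : k) * y ^ j) =
        algebraMap k (PowerSeries R) (n : k) * (Q.coeff j * y ^ j) := by ring
    rw [h5]
    exact mul_mem (hk _) (hF Q hQF j (Nat.dvd_of_mod_eq_zero hj))
  · rw [if_neg hj, map_zero, zero_mul, mul_zero]
    exact zero_mem _

end loc

end Pool.Agent.H20.EG
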