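import Pool.Agent.H20.EG.Wt
import Pool.Agent.H20.EG.Gal
import Pool.Agent.H20.EG.Cst
import Pool.Agent.H20.EG.Fix
import Pool.Agent.H20.ML.Main

/-!
# Project EG (MP_a3214d): every transitive group over all large enough number fields
-/

set_option autoImplicit false

open Polynomial NumberField Filter

namespace Pool.Agent.H20.EG

open Pool.Agent.H20.ML Pool.Agent.H35.AN

/-- the cover over every field containing `K` -/
theorem exists_cover {k₁ : Type} [Field k₁] {n : ℕ} (hn : 2 ≤ n)
    (G : Subgroup (Equiv.Perm (Fin n)))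
    [Fintype G] (ω₀ : Fin n) (htr : ∀ ω, ∃ m : G, (m : Equiv.Perm (Fin n)) ω₀ = ω)
    (H : Subgroup G) (hH : ∀ σ : G, σ ∈ H ↔ (σ : Equiv.Perm (Fin n)) ω₀ = ω₀) {D d : ℕ}
    {Q : Dat k₁ G H D d} {K : Type} [Field K] (M : Mod Q K) {k : Type} [Field k]
    [NumberField k] (ψ : K →+* k) :
    ∃ (L : IntermediateField (RatFunc k) (AlgebraicClosure (RatFunc k))),
      Module.finrank (RatFunc k) L = n ∧ FiniteDimensional (RatFunc k) L ∧
      HasGroup (RatFunc k) n G L ∧
      IntermediateField.adjoin (RatFunc k) {x : L | IsAlgebraic k x} ≠ ⊤ ∧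
      D ≤ Module.finrank k (Wspace k L d) := by
  classical
  obtain ⟨E, _, _, act, y, Φ, η, hfd, hfin, hinj, hinv, hwt, hli, hΦm, hΦd, hy, hgeom⟩ :=
    exists_galois M ψ
  obtain ⟨L, j, hLn, hLG, hjL, hLj⟩ := exists_fix G ω₀ htr act hinj hfin H hH
  have hLfd : FiniteDimensional (RatFunc k) L :=
    Module.finite_of_finrank_pos (by rw [hLn]; omega)
  have hs1 : IsScalarTower k L (AlgebraicClosure (RatFunc k)) :=
    IsScalarTower.of_algebraMap_eq (fun _ => rfl)
  have hs2 : IsScalarTower k[X] L (AlgebraicClosure (RatFunc k)) :=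
    IsScalarTower.of_algebraMap_eq (fun _ => rfl)
  refine ⟨L, hLn, hLfd, hLG, ?_, ?_⟩
  · -- constants
    intro htop
    let aE : Algebra k E := ((algebraMap (RatFunc k) E).comp (algebraMap k (RatFunc k))).toAlgebra
    have hst : IsScalarTower k (RatFunc k) E := IsScalarTower.of_algebraMap_eq (fun _ => rfl)
    let jk : E →ₐ[k] AlgebraicClosure (RatFunc k) := j.restrictScalars k
    have hjinj : Function.Injective jk := j.injective
    have h1 : ∀ x : L, IsAlgebraic k x → x ∈ (⊥ : IntermediateField (RatFunc k) L) := by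
      intro x hx
      obtain ⟨x', hx'⟩ := hLj x x.2
      have h2 : IsAlgebraic k (x : AlgebraicClosure (RatFunc k)) := hx.algebraMap
      have h3 : IsAlgebraic k x' := by
        rw [← hx'] at h2
        exact (isAlgebraic_algHom_iff jk hjinj).1 h2
      obtain ⟨a, ha⟩ := cst_mem_range y Φ hΦm (by rw [hΦd, hfin]) hy hgeom x' h3
      rw [IntermediateField.mem_bot]
      refine ⟨a, ?_⟩
      apply Subtype.ext
      rw [← hx', ← ha]
      exact (j.commutes a).symm
    have h2 : IntermediateField.adjoin (RatFunc k) {x : L | IsAlgebraic k x} ≤ ⊥ := by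
      rw [IntermediateField.adjoin_le_iff]
      intro x hx
      exact h1 x hx
    rw [htop] at h2
    have h3 : (⊥ : IntermediateField (RatFunc k) L) = ⊤ := le_antisymm le_top h2
    have h4 : Module.finrank (RatFunc k) L = 1 := by
      rw [← IntermediateField.finrank_top', ← h3, IntermediateField.finrank_bot]
    omega
  · -- the dimension
    have hfW : FiniteDimensional k (Wspace k L d) := finite_Wspace d
    let η' : Fin D → L := fun s => ⟨j (η s), hjL (η s) (hinv s)⟩
    have hη' : ∀ s, Weight k L d (η' s) := by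
      intro s
      obtain ⟨P, hPm, hP0, hPw⟩ := hwt s
      refine ⟨P, hPm, ?_, hPw⟩
      apply Subtype.ext
      have h1 := congrArg j hP0
      rw [map_zero] at h1
      have h2 : j (eval₂ ((algebraMap (RatFunc k) E).comp (algebraMap k[X] (RatFunc k))) (η s) P) =
          eval₂ (algebraMap k[X] (AlgebraicClosure (RatFunc k))) (j (η s)) P := by
        have h3 := Polynomial.hom_eval₂ P
          ((algebraMap (RatFunc k) E).comp (algebraMap k[X] (RatFunc k)))
          (j : E →+* AlgebraicClosure (RatFunc k)) (η s)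
        refine h3.trans ?_
        congr 1
        apply RingHom.ext
        intro p
        show j (algebraMap (RatFunc k) E (algebraMap k[X] (RatFunc k) p)) = _
        rw [j.commutes, ← IsScalarTower.algebraMap_apply]
      rw [h2] at h1
      show ((aeval (η' s) P : L) : AlgebraicClosure (RatFunc k)) = 0
      have h4 : ((aeval (η' s) P : L) : AlgebraicClosure (RatFunc k)) =
          aeval ((η' s : L) : AlgebraicClosure (RatFunc k)) P :=
        (aeval_algebraMap_apply (AlgebraicClosure (RatFunc k)) (η' s) P).symm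
      rw [h4, aeval_def]
      exact h1
    let η'' : Fin D → Wspace k L d := fun s => ⟨η' s, Submodule.subset_span (hη' s)⟩
    have hli' : LinearIndependent k η'' := by
      rw [Fintype.linearIndependent_iff]
      intro α hα
      apply hli α
      apply j.injective
      rw [map_zero, map_sum]
      have h1 : ∑ s, α s • η' s = 0 := by
        have h2 := congrArg (Wspace k L d).subtype hα
        rw [map_sum, map_zero] at h2
        rw [← h2]
        exact Finset.sum_congr rfl fun s _ => (map_smul (Wspace k L d).subtype (α s) (η'' s)).symm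
      have h2 := congrArg (algebraMap L (AlgebraicClosure (RatFunc k))) h1
      rw [map_sum, map_zero] at h2
      rw [← h2]
      apply Finset.sum_congr rfl
      intro s _
      have h3 : algebraMap L (AlgebraicClosure (RatFunc k)) (algebraMap k L (α s)) =
          algebraMap (RatFunc k) (AlgebraicClosure (RatFunc k)) (RatFunc.C (α s)) := by
        rw [← IsScalarTower.algebraMap_apply k L (AlgebraicClosure (RatFunc k)),
          IsScalarTower.algebraMap_apply k (RatFunc k) (AlgebraicClosure (RatFunc k)),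
          RatFunc.algebraMap_eq_C]
      have h4 : algebraMap L (AlgebraicClosure (RatFunc k)) (α s • η' s) =
          algebraMap (RatFunc k) (AlgebraicClosure (RatFunc k)) (RatFunc.C (α s)) * j (η s) := by
        rw [Algebra.smul_def, map_mul, h3]
        rfl
      rw [h4]
      show j (algebraMap (RatFunc k) E (RatFunc.C (α s)) * η s) = _
      rw [map_mul, j.commutes]
    have := hli'.fintype_card_le_finrank
    rwa [Fintype.card_fin] at this

theorem exists_cyc (m : ℕ) (hm : m ≠ 0) : ∃ (k : Type) (_ : Field k) (_ : NumberField k) (z : k),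
    IsPrimitiveRoot z m := by
  have hm' : NeZero m := ⟨hm⟩
  have hm'' : NeZero ((m : ℕ) : ℚ) := ⟨by exact_mod_cast hm⟩
  have hc : IsCyclotomicExtension {m} ℚ (CyclotomicField m ℚ) :=
    CyclotomicField.isCyclotomicExtension m ℚ
  exact ⟨CyclotomicField m ℚ, inferInstance, IsCyclotomicExtension.numberField {m} ℚ _,
    IsCyclotomicExtension.zeta m ℚ (CyclotomicField m ℚ), IsCyclotomicExtension.zeta_spec m ℚ _⟩

theorem defect_le' {k : Type} [Field k] [NumberField k] {n : ℕ}
    (L : IntermediateField (RatFunc k) (AlgebraicClosure (RatFunc k)))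
    (hLn : Module.finrank (RatFunc k) L = n) (hLfd : FiniteDimensional (RatFunc k) L) (A : ℕ)
    (hA : ∀ᶠ m : ℕ in atTop, Module.finrank k (Wspace k L m) + A = n * (m + 1)) {m s : ℕ}
    (hs : s ≤ m) (hD : n * (m + 1) ≤ Module.finrank k (Wspace k L m) + s) : A ≤ s :=
  @defect_le k _ L _ _ _ _ hLfd _ _ n hLn A hA m s hs hD

/-- lower bounds for every transitive group over all number fields containing a suitable one -/
theorem main_all {n : ℕ} (hn : 2 ≤ n) (G : Subgroup (Equiv.Perm (Fin n)))
    (htr : ∀ a b : Fin n, ∃ σ ∈ G, σ a = b) {r : ℕ} (g : Fin r → Equiv.Perm (Fin n))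
    (hg : Subgroup.closure (Set.range g) = G) :
    ∃ (K : Type) (_ : Field K) (_ : NumberField K), ∀ (k : Type) [Field k] [NumberField k],
      Nonempty (K →+* k) → ∀ ε : ℝ, 0 < ε → ∀ᶠ B : ℝ in atTop,
        B ^ (1 / ((∑ i, (n - orb (g i)) : ℕ) : ℝ) - ε) ≤ (malleCount k n G B : ℝ) := by
  classical
  have := Fintype.ofFinite G
  let ω₀ : Fin n := ⟨0, by omega⟩
  -- roots of unity
  let m : ℕ := Nat.card G
  have hm : m ≠ 0 := Nat.card_pos.ne'
  obtain ⟨k₁, _, _, z, hz⟩ := exists_cyc m hm
  have hgG : ∀ i, g i ∈ G := by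
    intro i
    rw [← hg]
    exact Subgroup.subset_closure ⟨i, rfl⟩
  let g' : Fin r → G := fun i => ⟨g i, hgG i⟩
  have hg' : Subgroup.closure (Set.range g') = ⊤ := by
    have h1 : (Subgroup.closure (Set.range g')).map G.subtype = G := by
      rw [MonoidHom.map_closure, ← Set.range_comp]
      exact hg
    rw [eq_top_iff]
    intro x _
    have h2 : (x : Equiv.Perm (Fin n)) ∈ (Subgroup.closure (Set.range g')).map G.subtype := by
      rw [h1]
      exact x.2
    obtain ⟨y, hy, hyx⟩ := h2
    have h3 : y = x := Subtype.ext hyx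
    rwa [h3] at hy
  let ζ : Fin r → k₁ := fun i => z ^ (m / orderOf (g' i))
  have hζ : ∀ i, IsPrimitiveRoot (ζ i) (orderOf (g' i)) := fun i =>
    hz.pow (Nat.pos_of_ne_zero hm) (Nat.div_mul_cancel (orderOf_dvd_natCard (g' i))).symm
  set s : ℕ := ∑ i, (n - orb (g i)) with hs
  let H : Subgroup G := MulAction.stabilizer G ω₀
  have hH : ∀ σ : G, σ ∈ H ↔ (σ : Equiv.Perm (Fin n)) ω₀ = ω₀ := fun σ => Iff.rfl
  have htr' : ∀ ω, ∃ m : G, (m : Equiv.Perm (Fin n)) ω₀ = ω := by
    intro ω
    obtain ⟨σ, hσ, h⟩ := htr ω₀ ω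
    exact ⟨⟨σ, hσ⟩, h⟩
  obtain ⟨D, hD, ⟨Q⟩⟩ := exists_dat k₁ G ω₀ htr' g' hg' ζ hζ (s + r)
    (by rw [Fintype.card_fin]; omega) H (fun σ hσ => (hH σ).1 hσ)
  obtain ⟨K, hK, hKn, ⟨M⟩⟩ := exists_mod Q
  refine ⟨K, hK, hKn, ?_⟩
  intro k _ _ ⟨ψ⟩ ε hε
  obtain ⟨L, hLn, hLfd, hLG, hLc, hLD⟩ := exists_cover hn G ω₀ htr' H hH M ψ
  obtain ⟨A, hA0, hA, hcount⟩ := main_intrinsic k n G L hLn hLG hLc
  have hAs : A ≤ s := by
    refine defect_le' L hLn hLfd A hA (m := s + r) (Nat.le_add_right s r) ?_
    have h1 : ∑ i, (n - orb (g' i : Equiv.Perm (Fin n))) = s := rfl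
    rw [h1] at hD
    exact hD.trans (Nat.add_le_add_right hLD s)
  filter_upwards [hcount ε hε, eventually_ge_atTop 1] with B hB hB1
  refine le_trans ?_ hB
  apply Real.rpow_le_rpow_of_exponent_le hB1
  have h1 : (0 : ℝ) < A := by exact_mod_cast hA0
  have h2 : (A : ℝ) ≤ (s : ℝ) := by exact_mod_cast hAs
  have h3 := one_div_le_one_div_of_le h1 h2
  linarith

end Pool.Agent.H20.EG
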