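import Pool.Agent.H20.EG.Fam
import Pool.Agent.H20.EG.LISpec
import Pool.Agent.H47.Patch.SpecData

/-!
# Project EG (MP_a3214d): a model of finite type and its specialisation over a number field
-/

set_option autoImplicit false
set_option linter.unusedSectionVars false

namespace Pool.Agent.H20.EG

open Polynomial Pool.Agent.H47.Patch

/-- A finitely generated domain over a number field has points over a finite extension. -/
theorem exists_point {k : Type} [Field k] [NumberField k] {A : Type} [CommRing A] [IsDomain A]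
    [Algebra k A] (hA : Algebra.FiniteType k A) (a : A) (ha : a ≠ 0) :
    ∃ (K : Type) (_ : Field K) (_ : NumberField K) (φ : A →+* K), φ a ≠ 0 := by
  let B := Localization.Away a
  have hBft : Algebra.FiniteType A B := IsLocalization.finiteType_of_monoid_fg (Submonoid.powers a) B
  have hkB : Algebra.FiniteType k B := Algebra.FiniteType.trans hA hBft
  have hnt : Nontrivial B := by
    have hinj : Function.Injective (algebraMap A B) :=
      IsLocalization.injective B (powers_le_nonZeroDivisors_of_noZeroDivisors ha)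
    exact hinj.nontrivial
  obtain ⟨m, hm⟩ := Ideal.exists_maximal B
  let K := B ⧸ m
  let _ : Field K := Ideal.Quotient.field m
  have hft : Algebra.FiniteType k K := Algebra.FiniteType.of_surjective
    (Ideal.Quotient.mkₐ k m) (Ideal.Quotient.mkₐ_surjective k m)
  have hfin : Module.Finite k K := finite_of_finite_type_of_isJacobsonRing k K
  have hch : CharZero K := charZero_of_injective_algebraMap (algebraMap k K).injective
  have hQ : FiniteDimensional ℚ K := by
    have : IsScalarTower ℚ k K := inferInstance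
    exact Module.Finite.trans k K
  refine ⟨K, inferInstance, { to_charZero := hch, to_finiteDimensional := hQ },
    (Ideal.Quotient.mk m).comp (algebraMap A B), ?_⟩
  have hu : IsUnit (algebraMap A B a) := IsLocalization.Away.algebraMap_isUnit a
  have hu' : IsUnit ((Ideal.Quotient.mk m).comp (algebraMap A B) a) := hu.map (Ideal.Quotient.mk m)
  exact hu'.ne_zero

/-- the specialisable data -/
structure Mod {k : Type} [Field k] {N : Type} [Group N] [Fintype N] {H : Subgroup N}
    {D d : ℕ} (Q : Dat k N H D d) (K : Type) [Field K] where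
  A : Type
  [cr : CommRing A]
  [dom : IsDomain A]
  i : A →+* PowerSeries k
  inj : Function.Injective i
  φ : A →+* K
  Φ : A[X][X]
  Φm : Φ.Monic
  Φe : Φ.map (mapRingHom i) = Q.Φ
  Δ : A[X]
  Δe : Δ.map i = Q.Δ
  Λ : N → A[X][X]
  Λe : ∀ n, (Λ n).map (mapRingHom i) = Q.Λ n
  Γ : Fin D → A[X][X]
  Γe : ∀ s, (Γ s).map (mapRingHom i) = Q.Γ s
  Ψ : Fin D → A[X][X]
  Ψm : ∀ s, (Ψ s).Monic
  Ψe : ∀ s, (Ψ s).map (mapRingHom i) = Q.Ψ s
  ne : Δ.map φ ≠ 0
  geom : ∀ (F : Type) [Field F] (ψ : K →+* F), ∀ U V : F[X][X], U.Monic → V.Monic →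
    Φ.map (mapRingHom (ψ.comp φ)) = U * V → U = 1 ∨ V = 1
  li : ∀ (F : Type) [Field F] (ψ : K →+* F) (α : Fin D → F),
    ∑ s, C (C (α s)) * (Γ s).map (mapRingHom (ψ.comp φ)) = 0 → ∀ s, α s = 0

theorem exists_mod {k : Type} [Field k] [NumberField k] {N : Type} [Group N] [Fintype N]
    {H : Subgroup N} {D d : ℕ} (Q : Dat k N H D d) :
    ∃ (K : Type) (_ : Field K) (_ : NumberField K), Nonempty (Mod Q K) := by
  classical
  let T : Set (PowerSeries k) := (Set.range fun jl : ℕ × ℕ => (Q.Φ.coeff jl.1).coeff jl.2) ∪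
    ((Set.range fun j => Q.Δ.coeff j) ∪
      ((⋃ g, Set.range fun jl : ℕ × ℕ => ((Q.Λ g).coeff jl.1).coeff jl.2) ∪
      ((⋃ s, Set.range fun jl : ℕ × ℕ => ((Q.Γ s).coeff jl.1).coeff jl.2) ∪
      (⋃ s, Set.range fun jl : ℕ × ℕ => ((Q.Ψ s).coeff jl.1).coeff jl.2))))
  have hT : T.Finite := (finite_coeffs2 Q.Φ).union
    ((finite_coeffs1 _).union
      ((Set.finite_iUnion fun g => finite_coeffs2 _).union
      ((Set.finite_iUnion fun g => finite_coeffs2 _).union
      (Set.finite_iUnion fun g => finite_coeffs2 _))))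
  let A := Algebra.adjoin k T
  have hAfg : A.FG := Subalgebra.fg_def.2 ⟨T, hT, rfl⟩
  have hft : Algebra.FiniteType k A := A.fg_iff_finiteType.1 hAfg
  let i : A →+* PowerSeries k := A.val.toRingHom
  have hi : Function.Injective i := Subtype.val_injective
  have hTA : ∀ u ∈ T, ∃ x, i x = u := fun u hu => ⟨⟨u, Algebra.subset_adjoin hu⟩, rfl⟩
  obtain ⟨Φ, hΦ, hΦm⟩ := lift_poly2_monic i Q.Φ Q.Φm (fun j l =>
    hTA _ (Or.inl ⟨(j, l), rfl⟩))
  obtain ⟨Δ, hΔ⟩ := lift_poly1 i Q.Δ (fun j => hTA _ (Or.inr (Or.inl ⟨j, rfl⟩)))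
  have h1 : ∀ g, ∃ P : A[X][X], P.map (mapRingHom i) = Q.Λ g := fun g =>
    lift_poly2 i (Q.Λ g) (fun j l =>
      hTA _ (Or.inr (Or.inr (Or.inl (Set.mem_iUnion.2 ⟨g, ⟨(j, l), rfl⟩⟩)))))
  have h2 : ∀ s, ∃ P : A[X][X], P.map (mapRingHom i) = Q.Γ s := fun s =>
    lift_poly2 i (Q.Γ s) (fun j l =>
      hTA _ (Or.inr (Or.inr (Or.inr (Or.inl (Set.mem_iUnion.2 ⟨s, ⟨(j, l), rfl⟩⟩))))))
  have h3 : ∀ s, ∃ P : A[X][X], P.map (mapRingHom i) = Q.Ψ s ∧ P.Monic := fun s =>
    lift_poly2_monic i (Q.Ψ s) (Q.Ψm s) (fun j l =>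
      hTA _ (Or.inr (Or.inr (Or.inr (Or.inr (Set.mem_iUnion.2 ⟨s, ⟨(j, l), rfl⟩⟩))))))
  choose Λ hΛ using h1
  choose Γ hΓ using h2
  choose Ψ hΨ hΨm using h3
  have hBN : ∀ (κ : Type) [Field κ] (e : A →+* κ), Function.Injective e →
      (∀ u : κ, ∃ p : A[X], p ≠ 0 ∧ eval₂ e u p = 0) →
      ∀ U V : κ[X][X], U.Monic → V.Monic → Φ.map (mapRingHom e) = U * V → U = 1 ∨ V = 1 := by
    intro κ _ e he halg U V hU hV hUV
    let KK := FractionRing (PowerSeries k)
    let Ω := AlgebraicClosure KK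
    let eΩ : PowerSeries k →+* Ω := algebraMap (PowerSeries k) Ω
    have heΩ : Function.Injective eΩ := by
      show Function.Injective (algebraMap (PowerSeries k) Ω)
      rw [IsScalarTower.algebraMap_eq (PowerSeries k) KK Ω]
      exact (algebraMap KK Ω).injective.comp (IsFractionRing.injective _ _)
    have halgΩ : ∀ u : Ω, ∃ p : (PowerSeries k)[X], p ≠ 0 ∧ eval₂ eΩ u p = 0 := by
      intro u
      have h3 : IsAlgebraic KK u := Algebra.IsAlgebraic.isAlgebraic u
      have h4 : IsAlgebraic (PowerSeries k) u :=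
        (IsFractionRing.isAlgebraic_iff (PowerSeries k) KK Ω).2 h3
      obtain ⟨p, hp, hp'⟩ := h4
      exact ⟨p, hp, by rw [aeval_def] at hp'; exact hp'⟩
    obtain ⟨L, hL⟩ := embed_alg e he halg (eΩ.comp i) (heΩ.comp hi)
    have hLi : Function.Injective L := L.injective
    have hfac : Q.Φ.map (mapRingHom eΩ) = U.map (mapRingHom L) *
        V.map (mapRingHom L) := by
      rw [← Polynomial.map_mul, ← hUV, ← hΦ, Polynomial.map_map, Polynomial.map_map,
        mapRingHom_comp, mapRingHom_comp, hL]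
    have hmi : Function.Injective (Polynomial.map (mapRingHom L)) := by
      apply Polynomial.map_injective
      exact Polynomial.map_injective _ hLi
    rcases geom_irred eΩ heΩ halgΩ Q.f Q.inj Q.Φ Q.Φe Q.irr _ _ (hU.map _) (hV.map _) hfac with h | h
    · left
      apply hmi
      rw [h, Polynomial.map_one]
    · right
      apply hmi
      rw [h, Polynomial.map_one]
  obtain ⟨a, ha, hF⟩ := bertini_noether Φ hΦm hBN
  have hΔ0 : Δ ≠ 0 := by
    intro h0
    apply Q.Δne
    rw [← hΔ, h0, Polynomial.map_zero]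
  obtain ⟨b, hb, hli⟩ := exists_li Γ (by
    intro α hα
    have h5 : ∑ s, C (C (i (α s))) * Q.Γ s = 0 := by
      have h6 := congrArg (Polynomial.map (mapRingHom i)) hα
      rw [Polynomial.map_sum, Polynomial.map_zero] at h6
      rw [← h6]
      apply Finset.sum_congr rfl
      intro s _
      rw [Polynomial.map_mul, hΓ, map_C, coe_mapRingHom, map_C]
    intro s
    have h6 := Q.li _ h5 s
    exact (map_eq_zero_iff i hi).1 h6)
  have hane : a * (b * Δ.leadingCoeff) ≠ 0 := mul_ne_zero ha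
    (mul_ne_zero hb (leadingCoeff_ne_zero.2 hΔ0))
  obtain ⟨K, hK, hKn, φ, hφ⟩ := exists_point hft _ hane
  rw [map_mul, map_mul] at hφ
  have hφa : φ a ≠ 0 := left_ne_zero_of_mul hφ
  have hφb : φ b ≠ 0 := left_ne_zero_of_mul (right_ne_zero_of_mul hφ)
  have hφΔ : φ Δ.leadingCoeff ≠ 0 := right_ne_zero_of_mul (right_ne_zero_of_mul hφ)
  refine ⟨K, hK, hKn, ⟨{
    A := A
    i := i
    inj := hi
    φ := φ
    Φ := Φ
    Φm := hΦm
    Φe := hΦ
    Δ := Δ
    Δe := hΔ
    Λ := Λ
    Λe := hΛ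
    Γ := Γ
    Γe := hΓ
    Ψ := Ψ
    Ψm := hΨm
    Ψe := hΨ
    ne := ?_
    geom := ?_
    li := ?_ }⟩⟩
  · intro h0
    apply hφΔ
    have := congrArg (fun q => q.coeff Δ.natDegree) h0
    simp only [coeff_map, coeff_zero] at this
    exact this
  · intro F _ ψ U V hU hV hUV
    refine hF F (ψ.comp φ) ?_ U V hU hV hUV
    rw [RingHom.comp_apply, Ne, map_eq_zero]
    exact hφa
  · intro F _ ψ α hα
    refine hli F (ψ.comp φ) ?_ α hα
    rw [RingHom.comp_apply, Ne, map_eq_zero]
    exact hφb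

end Pool.Agent.H20.EG
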