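import Pool.Agent.H47.Patch.Const

/-!
# Project EG (MP_a3214d): functions with poles at the branch points and bounded poles at infinity
-/

set_option autoImplicit false
set_option linter.unusedSectionVars false

open Polynomial

namespace Pool.Agent.H20.EG

open Pool.Agent.H47.Patch

variable {k : Type*} [Field k] {I : Type*} [Fintype I]

/-- rational functions with poles at the points `c i` and a pole of order at most `d` at infinity -/
noncomputable def Md (c : I → k) (d : ℕ) : AddSubgroup (RatFunc k) where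
  carrier := {u | ∃ (N : ℕ) (p : k[X]), p.natDegree ≤ d + N * Fintype.card I ∧
    u * algebraMap k[X] (RatFunc k) (qq c) ^ N = algebraMap k[X] (RatFunc k) p}
  zero_mem' := ⟨0, 0, by simp, by simp⟩
  neg_mem' := by
    rintro u ⟨N, p, hp, h⟩
    exact ⟨N, -p, by rwa [natDegree_neg], by rw [map_neg, ← h]; ring⟩
  add_mem' := by
    rintro u v ⟨N, p, hp, h⟩ ⟨N', p', hp', h'⟩
    refine ⟨N + N', p * qq c ^ N' + p' * qq c ^ N, ?_, ?_⟩
    · refine (natDegree_add_le _ _).trans (max_le ?_ ?_)
      · refine natDegree_mul_le.trans ?_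
        rw [natDegree_pow, qq_natDegree, add_mul]
        omega
      · refine natDegree_mul_le.trans ?_
        rw [natDegree_pow, qq_natDegree, add_mul]
        omega
    · rw [map_add, map_mul, map_mul, ← h, ← h', map_pow, map_pow]
      ring

variable {c : I → k}

theorem Md_mono {d d' : ℕ} (h : d ≤ d') {u : RatFunc k} (hu : u ∈ Md c d) : u ∈ Md c d' := by
  obtain ⟨N, p, hp, h1⟩ := hu
  exact ⟨N, p, by omega, h1⟩

theorem Md_mul {d d' : ℕ} {u v : RatFunc k} (hu : u ∈ Md c d) (hv : v ∈ Md c d') :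
    u * v ∈ Md c (d + d') := by
  obtain ⟨N, p, hp, h⟩ := hu
  obtain ⟨N', p', hp', h'⟩ := hv
  refine ⟨N + N', p * p', ?_, ?_⟩
  · refine natDegree_mul_le.trans ?_
    rw [add_mul]
    omega
  · rw [map_mul, ← h, ← h']
    ring

theorem poly_mem_Md {d : ℕ} {p : k[X]} (hp : p.natDegree ≤ d) :
    algebraMap k[X] (RatFunc k) p ∈ Md c d :=
  ⟨0, p, by omega, by rw [pow_zero, mul_one]⟩

theorem w_mem_Md {i : I} {w : RatFunc k}
    (hw : w * algebraMap k[X] (RatFunc k) (X - C (c i)) = 1) : w ∈ Md c 0 := by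
  classical
  refine ⟨1, ∏ j ∈ Finset.univ.erase i, (X - C (c j)), ?_, ?_⟩
  · rw [natDegree_prod_of_monic _ _ (fun i _ => monic_X_sub_C _)]
    simp
  · rw [pow_one, qq, ← Finset.mul_prod_erase _ _ (Finset.mem_univ i), map_mul, ← mul_assoc, hw,
      one_mul]

theorem const_mem_Md (a : k) (d : ℕ) : algebraMap k (RatFunc k) a ∈ Md c d := by
  have : algebraMap k (RatFunc k) a = algebraMap k[X] (RatFunc k) (C a) := by
    rw [RatFunc.algebraMap_C, RatFunc.algebraMap_eq_C]
  rw [this]
  exact poly_mem_Md (by simp)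

theorem Md_zero_mul {d : ℕ} {u v : RatFunc k} (hu : u ∈ Md c 0) (hv : v ∈ Md c d) :
    u * v ∈ Md c d := by
  have := Md_mul hu hv
  rwa [zero_add] at this

theorem pow_mem_Md {u : RatFunc k} (hu : u ∈ Md c 0) (N : ℕ) : u ^ N ∈ Md c 0 := by
  induction N with
  | zero =>
    rw [pow_zero, ← map_one (algebraMap k[X] (RatFunc k))]
    exact poly_mem_Md (by simp)
  | succ N ih =>
    rw [pow_succ]
    exact Md_zero_mul ih hu

theorem exists_poly (hc : Function.Injective c) {d : ℕ} {u : RatFunc k} (hu : u ∈ Md c d)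
    (hr : ∀ i, u ∈ Oc (c i)) :
    ∃ p : k[X], p.natDegree ≤ d ∧ algebraMap k[X] (RatFunc k) p = u := by
  classical
  obtain ⟨N, p, hp, h⟩ := hu
  have hdiv : ∀ i, (X - C (c i)) ^ N ∣ p := by
    intro i
    obtain ⟨p', v, hv, h'⟩ := hr i
    refine X_sub_C_pow_dvd hv ?_
    have h1 : p * v = p' * qq c ^ N := by
      apply algebraMap_injective' (k := k)
      rw [map_mul, map_mul, map_pow, ← h, ← h']
      ring
    rw [h1, qq, ← Finset.mul_prod_erase _ _ (Finset.mem_univ i), mul_pow]
    exact dvd_mul_of_dvd_right (dvd_mul_right _ _) _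
  have hprod : qq c ^ N ∣ p := by
    rw [qq, ← Finset.prod_pow]
    apply Finset.prod_dvd_of_coprime
    · intro i _ j _ hij
      apply IsCoprime.pow
      exact pairwise_coprime_X_sub_C hc hij
    · intro i _
      exact hdiv i
  obtain ⟨p', hp'⟩ := hprod
  refine ⟨p', ?_, ?_⟩
  · by_cases hp0 : p' = 0
    · rw [hp0]; simp
    · rw [hp', natDegree_mul (pow_ne_zero _ (qq_ne_zero c)) hp0, natDegree_pow, qq_natDegree] at hp
      omega
  · rw [hp', map_mul, map_pow, mul_comm] at h
    exact (mul_left_cancel₀ (pow_ne_zero _ (qqR_ne_zero c)) h).symm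

/-- power series with coefficients in `Md c d` -/
def PM (c : I → k) (d : ℕ) : AddSubgroup (PowerSeries (RatFunc k)) where
  carrier := {u | ∀ t, PowerSeries.coeff t u ∈ Md c d}
  zero_mem' := fun t => by rw [map_zero]; exact zero_mem _
  neg_mem' := fun hu t => by rw [map_neg]; exact neg_mem (hu t)
  add_mem' := fun hu hv t => by rw [map_add]; exact add_mem (hu t) (hv t)

theorem mem_PM {d : ℕ} {u : PowerSeries (RatFunc k)} :
    u ∈ PM c d ↔ ∀ t, PowerSeries.coeff t u ∈ Md c d := Iff.rfl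

theorem PM_mono {d d' : ℕ} (h : d ≤ d') {u : PowerSeries (RatFunc k)} (hu : u ∈ PM c d) :
    u ∈ PM c d' := fun t => Md_mono h (hu t)

theorem PM_mul {d d' : ℕ} {u v : PowerSeries (RatFunc k)} (hu : u ∈ PM c d) (hv : v ∈ PM c d') :
    u * v ∈ PM c (d + d') := by
  intro t
  rw [PowerSeries.coeff_mul]
  exact sum_mem fun _ _ => Md_mul (hu _) (hv _)

theorem one_mem_PM (d : ℕ) : (1 : PowerSeries (RatFunc k)) ∈ PM c d := by
  intro t
  rw [PowerSeries.coeff_one]
  split_ifs
  · rw [← map_one (algebraMap k[X] (RatFunc k))]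
    exact poly_mem_Md (by simp)
  · exact zero_mem _

/-- bounded poles at infinity -/
def AAb (c : I → k) : Subring (PowerSeries (RatFunc k)) where
  carrier := {u | ∃ d, u ∈ PM c d}
  mul_mem' := by
    rintro u v ⟨d, hu⟩ ⟨d', hv⟩
    exact ⟨d + d', PM_mul hu hv⟩
  one_mem' := ⟨0, one_mem_PM 0⟩
  add_mem' := by
    rintro u v ⟨d, hu⟩ ⟨d', hv⟩
    exact ⟨max d d', add_mem (PM_mono (le_max_left _ _) hu) (PM_mono (le_max_right _ _) hv)⟩
  zero_mem' := ⟨0, zero_mem _⟩
  neg_mem' := by
    rintro u ⟨d, hu⟩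
    exact ⟨d, neg_mem hu⟩

theorem exists_iot (hc : Function.Injective c) {d : ℕ} {u : PowerSeries (RatFunc k)}
    (hu : u ∈ PM c d) (hr : ∀ i, u ∈ PS (Oc (c i))) :
    ∃ P : Polynomial (PowerSeries k), P.natDegree ≤ d ∧ iot k P = u := by
  choose p hpd hp using fun t => exists_poly hc (hu t) (fun i => hr i t)
  have h2 : ∀ (N t : ℕ), (∑ e ∈ Finset.range N,
      C (PowerSeries.mk fun t => (p t).coeff e) * X ^ e : Polynomial (PowerSeries k)).sum
        (fun e a => C (PowerSeries.coeff t a) * X ^ e)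
      = ∑ e ∈ Finset.range N, C ((p t).coeff e) * X ^ e := by
    intro N t
    induction N with
    | zero => simp [Polynomial.sum]
    | succ N ih =>
      rw [Finset.sum_range_succ, Finset.sum_range_succ, sum_add_index, ih,
        C_mul_X_pow_eq_monomial, sum_monomial_index, PowerSeries.coeff_mk]
      · simp
      · intro i; simp
      · intro i a b; simp [add_mul]
  refine ⟨∑ e ∈ Finset.range (d + 1), C (PowerSeries.mk fun t => (p t).coeff e) * X ^ e, ?_, ?_⟩
  · refine natDegree_sum_le_of_forall_le _ _ fun e he => ?_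
    refine (natDegree_C_mul_le _ _).trans ?_
    rw [natDegree_X_pow]
    rw [Finset.mem_range] at he
    omega
  · ext t
    rw [coeff_iot, h2, ← hp t]
    congr 1
    exact ((p t).as_sum_range_C_mul_X_pow' (by have := hpd t; omega)).symm

end Pool.Agent.H20.EG
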