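import Pool.Agent.H20.EG.Lift

/-!
# Project EG (MP_a3214d): the integral patched ring over `k(x)[[z]]`
-/

set_option autoImplicit false
set_option linter.unusedSectionVars false

namespace Pool.Agent.H20.EG

open Polynomial Pool.Agent.H47.Patch

theorem Loc_of_Lc {k : Type*} [Field k] {R : Type*} [Field R] [Algebra k R] {N : Type*} [Group N]
    {B : Subring (PowerSeries R)} {F : Subring (Polynomial (PowerSeries R))}
    (hFB : ∀ Q ∈ F, ∀ j, Q.coeff j ∈ B) {g : N} {ζ : k} {y : PowerSeries R}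
    {f : N → PowerSeries R} (h : Lc F g ζ y f) : Loc B g ζ y f := by
  intro m
  obtain ⟨Q, hQF, hQ⟩ := h m
  have hl : ∃ Q' : Polynomial B, Q'.map B.subtype = Q := by
    have : Q ∈ Polynomial.lifts B.subtype := by
      rw [Polynomial.lifts_iff_coeff_lifts]
      intro j
      exact ⟨⟨_, hFB Q hQF j⟩, rfl⟩
    exact (Polynomial.mem_lifts Q).1 this
  obtain ⟨Q', hQ'⟩ := hl
  refine ⟨Q', fun l => ?_⟩
  rw [hQ l, ← hQ', eval_map]

variable {k : Type*} [Field k] [CharZero k] {I : Type*} [Fintype I]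
  {c : I → k} {w : I → RatFunc k} (hc : Function.Injective c)
  (hw : ∀ i, w i * algebraMap k[X] (RatFunc k) (X - C (c i)) = 1)
  {N : Type*} [Group N] [Fintype N] (g : I → N) (ζ : I → k)
  (hζ : ∀ i, IsPrimitiveRoot (ζ i) (orderOf (g i)))

/-- the local polynomials at the point `c i` -/
noncomputable def FF (hw : ∀ i, w i * algebraMap k[X] (RatFunc k) (X - C (c i)) = 1)
    (g : I → N) (i : I) : Subring (Polynomial (PowerSeries (RatFunc k))) :=
  Fi (Oc (c i)) (w i) (algebraMap k[X] (RatFunc k) (X - C (c i))) (orderOf (g i))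
    (orderOf_pos (g i)) (hw i) (poly_mem_Oc _ _)

/-- the integral patched ring -/
noncomputable def TR1 (hw : ∀ i, w i * algebraMap k[X] (RatFunc k) (X - C (c i)) = 1)
    (g : I → N) (ζ : I → k) : Subring (N → PowerSeries (RatFunc k)) :=
  TI (AAb c) (FF hw g) g ζ (yy w g)

theorem TR1_translate {h : N → PowerSeries (RatFunc k)} (hh : h ∈ TR1 hw g ζ) (n : N) :
    (fun m => h (n * m)) ∈ TR1 hw g ζ := TI_translate h hh n

theorem FF_coeff {i : I} {Q : Polynomial (PowerSeries (RatFunc k))} (hQ : Q ∈ FF hw g i) (j : ℕ) :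
    Q.coeff j ∈ PS (Oc (c i)) :=
  coeff_mem_of_mem_Fi (hwu := hw i) (hu := poly_mem_Oc _ _) (hn := orderOf_pos (g i)) hQ j

theorem algebraMap_ps (a : k) : algebraMap k (PowerSeries (RatFunc k)) a
    = PowerSeries.C (algebraMap k (RatFunc k) a) := PowerSeries.algebraMap_apply

include hζ in
theorem const_mem_PS {x : PowerSeries (RatFunc k)} (h : (fun _ : N => x) ∈ TR1 hw g ζ) (i : I) :
    x ∈ PS (Oc (c i)) := by
  refine mem_of_const (n := orderOf (g i)) (orderOf_pos _) (hζ i) (fun a => ?_) ?_ (h.2 i)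
  · rw [algebraMap_ps]
    exact C_mem_PS (algebraMap_mem_Oc _ _)
  · intro Q hQ j hj
    exact term_mem (hwu := hw i) (hu := poly_mem_Oc _ _) (orderOf_pos (g i)) hQ
      (rt_pow (orderOf_pos (g i)) (w i)) hj

include hc hζ in
theorem const_mem_range {x : PowerSeries (RatFunc k)} (h : (fun _ : N => x) ∈ TR1 hw g ζ) :
    x ∈ Set.range (iot k) := by
  obtain ⟨d, hd⟩ := h.1 1
  obtain ⟨P, _, hP⟩ := exists_iot hc hd (const_mem_PS hw g ζ hζ h)
  exact ⟨P, hP⟩

/-- the coefficients of the polynomial with the given roots -/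
theorem Phi_weight {d : ℕ} {h : N → PowerSeries (RatFunc k)} (hh : ∀ m, h m ∈ PM c d)
    (s : Finset N) (j : ℕ) (hj : j ≤ s.card) :
    (∏ m ∈ s, (X - C (h m))).coeff j ∈ PM c (d * (s.card - j)) := by
  classical
  induction s using Finset.induction_on generalizing j with
  | empty =>
    rw [Finset.card_empty, Nat.le_zero] at hj
    subst hj
    rw [Finset.prod_empty, coeff_one_zero]
    exact one_mem_PM _
  | insert a s ha ih =>
    rw [Finset.card_insert_of_notMem ha] at hj ⊢
    rw [Finset.prod_insert ha, sub_mul]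
    have hdeg : (∏ m ∈ s, (X - C (h m))).natDegree = s.card := by
      rw [natDegree_prod_of_monic _ _ (fun i _ => monic_X_sub_C _)]
      simp
    have hmon : (∏ m ∈ s, (X - C (h m))).Monic := monic_prod_of_monic _ _ fun m _ => monic_X_sub_C _
    rw [coeff_sub, coeff_C_mul]
    refine sub_mem ?_ ?_
    · cases j with
      | zero =>
        have h0 : (X * ∏ m ∈ s, (X - C (h m))).coeff 0 = 0 := by simp
        rw [h0]
        exact zero_mem _
      | succ j =>
        rw [coeff_X_mul]
        have := ih j (by omega)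
        rwa [Nat.add_sub_add_right]
    · rcases Nat.lt_or_ge s.card j with h1 | h1
      · rw [coeff_eq_zero_of_natDegree_lt (by omega), mul_zero]
        exact zero_mem _
      · have h2 := PM_mul (hh a) (ih j h1)
        have h3 : d * (s.card + 1 - j) = d + d * (s.card - j) := by
          rw [show s.card + 1 - j = (s.card - j) + 1 by omega]
          ring
        rwa [h3]

include hc hζ in
/-- the characteristic polynomial of a function of bounded weight -/
theorem exists_char {d : ℕ} {h : N → PowerSeries (RatFunc k)} (hh : h ∈ TR1 hw g ζ)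
    (hd : ∀ m, h m ∈ PM c d) :
    ∃ Ψ : Polynomial (Polynomial (PowerSeries k)), Ψ.Monic ∧ Ψ.natDegree = Fintype.card N ∧
      Ψ.map (iot k) = Phi h ∧
      ∀ j ≤ Fintype.card N, (Ψ.coeff j).natDegree ≤ d * (Fintype.card N - j) := by
  classical
  have hmonic : (Phi h).Monic := monic_prod_of_monic _ _ fun m _ => monic_X_sub_C _
  have hdeg : (Phi h).natDegree = Fintype.card N := by
    rw [Phi, natDegree_prod_of_monic _ _ fun m _ => monic_X_sub_C _]
    simp
  have hcoef : ∀ j, ∀ i, (Phi h).coeff j ∈ PS (Oc (c i)) := fun j i =>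
    Phi_coeff_mem (T := TR1 hw g ζ) (S := {x | ∀ i, x ∈ PS (Oc (c i))})
      (fun h hh n => TR1_translate hw g ζ hh n) (fun x hx i => const_mem_PS hw g ζ hζ hx i) hh j i
  have hl : Phi h ∈ Polynomial.lifts (iot k) := by
    rw [lifts_iff_coeff_lifts]
    intro j
    rcases Nat.lt_or_ge (Fintype.card N) j with h1 | h1
    · refine ⟨0, ?_⟩
      rw [coeff_eq_zero_of_natDegree_lt (by omega), map_zero]
    · have h2 := Phi_weight hd Finset.univ j h1
      obtain ⟨P, _, hP⟩ := exists_iot hc h2 (hcoef j)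
      exact ⟨P, hP⟩
  obtain ⟨Ψ, hΨ, hΨd, hΨm⟩ := lifts_and_natDegree_eq_and_monic hl hmonic
  refine ⟨Ψ, hΨm, by rw [hΨd, hdeg], hΨ, fun j hj => ?_⟩
  have h2 := Phi_weight hd Finset.univ j hj
  obtain ⟨P, hPd, hP⟩ := exists_iot hc h2 (hcoef j)
  have h3 : iot k (Ψ.coeff j) = iot k P := by
    rw [hP, ← coeff_map, hΨ]
    rfl
  rw [iot_injective h3]
  exact hPd

theorem iot_mem_PS (P : Polynomial (PowerSeries k)) (x : k) : iot k P ∈ PS (Oc x) := by
  intro t
  rw [coeff_iot]
  exact poly_mem_Oc _ _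

include hζ in
theorem irr1 (hg : Subgroup.closure (Set.range g) = ⊤)
    {f : N → PowerSeries (RatFunc k)} (hf : f ∈ TR1 hw g ζ)
    (hinj : Function.Injective f) (S : Finset N) (b : Polynomial (PowerSeries k)) (hb : b ≠ 0)
    (h : ∀ j, ∃ P, iot k P = iot k b * (∏ m ∈ S, (X - C (f m))).coeff j) :
    S = ∅ ∨ S = Finset.univ := by
  classical
  have hst : ∀ i, ∀ m ∈ S, ∀ l : ℕ, m * g i ^ l ∈ S := by
    intro i m hm l
    have hLoc : Loc (plc hw i).B (g i) (ζ i) (yy w g i) f :=
      Loc_of_Lc (fun Q hQ j => PS_le_Bd _ (FF_coeff hw g hQ j)) (hf.2 i)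
    refine stable hLoc hinj ?_ S (iot k b) ?_ ?_ hm l
    · intro Q hQ l
      have h1 := Place.conj (plc hw i) (orderOf_pos (g i)) (hζ i)
        (rt_pow (orderOf_pos (g i)) (w i)) Q hQ l
      rw [algebraMap_ps]
      exact h1
    · rw [Ne, map_eq_zero_iff _ iot_injective]; exact hb
    · intro j
      obtain ⟨P, hP⟩ := h j
      rw [coeff_C_mul, ← hP]
      exact PS_le_Bd _ (iot_mem_PS P _)
  have hst2 : ∀ n : N, ∀ m ∈ S, m * n ∈ S := by
    intro n
    have hn : n ∈ Subgroup.closure (Set.range g) := by rw [hg]; trivial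
    induction hn using Subgroup.closure_induction with
    | mem x hx =>
      obtain ⟨i, rfl⟩ := hx
      intro m hm
      have := hst i m hm 1
      rwa [pow_one] at this
    | one => intro m hm; rwa [mul_one]
    | mul x y _ _ hx hy => intro m hm; rw [← mul_assoc]; exact hy _ (hx _ hm)
    | inv x _ hx =>
      intro m hm
      have hpow : ∀ j : ℕ, m * x ^ j ∈ S := by
        intro j
        induction j with
        | zero => rwa [pow_zero, mul_one]
        | succ j ih => rw [pow_succ, ← mul_assoc]; exact hx _ ih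
      have h1 : x⁻¹ = x ^ (orderOf x - 1) := by
        rw [inv_eq_iff_mul_eq_one, ← pow_succ', Nat.sub_add_cancel (orderOf_pos x),
          pow_orderOf_eq_one]
      rw [h1]
      exact hpow _
  rcases S.eq_empty_or_nonempty with h | ⟨m, hm⟩
  · exact Or.inl h
  · right
    rw [Finset.eq_univ_iff_forall]
    intro n
    have := hst2 (m⁻¹ * n) m hm
    rwa [mul_inv_cancel_left] at this

include hc hζ in
/-- Lagrange interpolation in the patched ring -/
theorem exists_lagrange {f : N → PowerSeries (RatFunc k)}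
    (hf : f ∈ TR1 hw g ζ) (hinj : Function.Injective f) :
    ∃ Δ : Polynomial (PowerSeries k), Δ ≠ 0 ∧ ∀ u ∈ TR1 hw g ζ,
      ∃ Λ : Polynomial (Polynomial (PowerSeries k)), Λ.natDegree < Fintype.card N ∧
      ∀ m, iot k Δ * u m = (Λ.map (iot k)).eval (f m) := by
  classical
  have htr : ∀ h ∈ TR1 hw g ζ, ∀ n : N, (fun m => h (n * m)) ∈ TR1 hw g ζ :=
    fun h hh n => TR1_translate hw g ζ hh n
  have hcst : ∀ x : PowerSeries (RatFunc k), (fun _ : N => x) ∈ TR1 hw g ζ →
      x ∈ Set.range (iot k) := fun x hx => const_mem_range hc hw g ζ hζ hx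
  obtain ⟨Δ, hΔ⟩ := prod_Dif_mem htr hcst hf
  refine ⟨Δ, ?_, fun u hu => ?_⟩
  · rintro rfl
    rw [map_zero] at hΔ
    have hDne : (∏ m', Dif f m') ≠ 0 := by
      rw [Finset.prod_ne_zero_iff]
      intro m _
      rw [Dif, Finset.prod_ne_zero_iff]
      intro m' hm'
      exact sub_ne_zero.2 (fun h => (Finset.ne_of_mem_erase hm') (hinj h).symm)
    exact hDne hΔ.symm
  · obtain ⟨Λ, hΛ, hΛd, hev⟩ := lagrange htr hcst hf hu
    have hl : Λ ∈ Polynomial.lifts (iot k) := by
      rw [lifts_iff_coeff_lifts]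
      intro j
      exact hΛ j
    obtain ⟨Λ', hΛ'⟩ := (Polynomial.mem_lifts Λ).1 hl
    refine ⟨Λ', ?_, fun m => ?_⟩
    · rw [← natDegree_map_eq_of_injective (iot_injective (k := k)) Λ', hΛ']
      exact hΛd
    · rw [hΔ, hev, hΛ']

end Pool.Agent.H20.EG
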