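import Pool.Agent.H20.ML.Reduce2

/-!
# Project EG (MP_a3214d): the defect from one space of bounded weight
-/

set_option autoImplicit false

open Polynomial

namespace Pool.Agent.H20.EG

open Pool.Agent.H20.ML

section wt

variable {k : Type} [Field k] {L : Type} [Field L] [Algebra (RatFunc k) L]
  [Algebra k[X] L] [IsScalarTower k[X] (RatFunc k) L] [FiniteDimensional (RatFunc k) L]
  [Algebra k L] [IsScalarTower k (RatFunc k) L]

variable {n : ℕ} (ω : Fin n → L) (a : Fin n → ℕ) (hli : LinearIndependent (RatFunc k) ω)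
  (hW : ∀ i, Wt k (a i) (ω i))
  (hmin : ∀ (i : Fin n) (z : L) (m : ℤ),
        z ∉ Submodule.span (RatFunc k) (ω '' Set.Iio i) → Wt k m z → (a i : ℤ) ≤ m)

include hli hW hmin

/-- the dimension of the space of elements of weight at most `m` -/
theorem finrank_Wspace_le (hn : Module.finrank (RatFunc k) L = n) (m : ℕ) :
    FiniteDimensional k (Wspace k L m) ∧
      Module.finrank k (Wspace k L m) ≤ ∑ i, (m + 1 - a i) := by
  classical
  have htow : IsScalarTower k k[X] L := by
    refine IsScalarTower.of_algebraMap_eq fun c => ?_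
    rw [IsScalarTower.algebraMap_apply k (RatFunc k) L,
      IsScalarTower.algebraMap_apply k k[X] (RatFunc k),
      ← IsScalarTower.algebraMap_apply k[X] (RatFunc k) L]
  set φ : (∀ i, degreeLT k (m + 1 - a i)) →ₗ[k] L :=
    { toFun := fun p => ∑ i, algebraMap k[X] L (p i : k[X]) * ω i
      map_add' := fun p q => by
        rw [← Finset.sum_add_distrib]
        refine Finset.sum_congr rfl fun i _ => ?_
        rw [Pi.add_apply, Submodule.coe_add, map_add, add_mul]
      map_smul' := fun c p => by
        rw [RingHom.id_apply, Finset.smul_sum]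
        refine Finset.sum_congr rfl fun i _ => ?_
        rw [Pi.smul_apply, Submodule.coe_smul, Algebra.smul_def, map_mul, Algebra.smul_def,
          mul_assoc, ← IsScalarTower.algebraMap_apply k k[X] L] } with hφ
  have hφa : ∀ p, φ p = ∑ i, algebraMap k[X] L (p i : k[X]) * ω i := fun p => rfl
  have hle : Wspace k L m ≤ LinearMap.range φ := by
    rw [Wspace, Submodule.span_le]
    intro y hy
    have hy' : Wt k m y := weight_iff_wt.1 hy
    rw [wt_iff_coeff ω a hli hW hmin hn] at hy'
    obtain ⟨p, hp, rfl⟩ := hy'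
    refine ⟨fun i => ⟨p i, ?_⟩, hφa _⟩
    rw [mem_degreeLT]
    rcases hp i with h | h
    · rw [h, degree_zero]
      exact WithBot.bot_lt_coe _
    · refine lt_of_le_of_lt degree_le_natDegree ?_
      exact_mod_cast (by omega : (p i).natDegree < m + 1 - a i)
  have hfin : ∀ N : ℕ, Module.finrank k (degreeLT k N) = N := by
    intro N
    rw [LinearEquiv.finrank_eq (degreeLTEquiv k N), Module.finrank_fin_fun]
  have hfd : ∀ N : ℕ, FiniteDimensional k (degreeLT k N) := fun N =>
    LinearEquiv.finiteDimensional (degreeLTEquiv k N).symm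
  refine ⟨Submodule.finiteDimensional_of_le hle, ?_⟩
  calc Module.finrank k (Wspace k L m) ≤ Module.finrank k (LinearMap.range φ) :=
        Submodule.finrank_mono hle
    _ ≤ Module.finrank k (∀ i, degreeLT k (m + 1 - a i)) := LinearMap.finrank_range_le φ
    _ = ∑ i, (m + 1 - a i) := by
        rw [Module.finrank_pi_fintype]
        exact Finset.sum_congr rfl fun i _ => hfin _

end wt

theorem sum_le_of_trunc {n : ℕ} (a : Fin n → ℕ) {m s : ℕ} (hs : s ≤ m)
    (h : n * (m + 1) ≤ ∑ i, (m + 1 - a i) + s) : ∑ i, a i ≤ s := by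
  have h1 : ∑ i, (m + 1 - a i) + ∑ i, min (a i) (m + 1) = n * (m + 1) := by
    rw [← Finset.sum_add_distrib]
    have : ∀ i, m + 1 - a i + min (a i) (m + 1) = m + 1 := fun i => by omega
    simp only [this, Finset.sum_const, Finset.card_univ, Fintype.card_fin, smul_eq_mul]
  have h2 : ∑ i, min (a i) (m + 1) ≤ s := by omega
  have h3 : ∀ i, min (a i) (m + 1) = a i := by
    intro i
    have h4 : min (a i) (m + 1) ≤ ∑ i, min (a i) (m + 1) :=
      Finset.single_le_sum (f := fun i => min (a i) (m + 1)) (fun _ _ => Nat.zero_le _)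
        (Finset.mem_univ i)
    omega
  simpa only [h3] using h2

theorem finite_Wspace {k : Type} [Field k] {L : Type} [Field L] [Algebra (RatFunc k) L]
    [Algebra k[X] L] [IsScalarTower k[X] (RatFunc k) L] [FiniteDimensional (RatFunc k) L]
    [Algebra k L] [IsScalarTower k (RatFunc k) L] (m : ℕ) :
    FiniteDimensional k (Wspace k L m) := by
  obtain ⟨ω, a, hli, hW, hmin⟩ := exists_minima (k := k) (L := L) rfl
  exact (finrank_Wspace_le ω a hli hW hmin rfl m).1

/-- the defect is bounded by the defect of one space of large enough weight -/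
theorem defect_le {k : Type} [Field k] {L : Type} [Field L] [Algebra (RatFunc k) L]
    [Algebra k[X] L] [IsScalarTower k[X] (RatFunc k) L] [FiniteDimensional (RatFunc k) L]
    [Algebra k L] [IsScalarTower k (RatFunc k) L] {n : ℕ}
    (hn : Module.finrank (RatFunc k) L = n) (A : ℕ)
    (hA : ∀ᶠ m : ℕ in Filter.atTop, Module.finrank k (Wspace k L m) + A = n * (m + 1))
    {m s : ℕ} (hs : s ≤ m) (hD : n * (m + 1) ≤ Module.finrank k (Wspace k L m) + s) : A ≤ s := by
  obtain ⟨ω, a, hli, hW, hmin⟩ := exists_minima (k := k) (L := L) hn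
  have h1 : ∑ i, a i ≤ s :=
    sum_le_of_trunc a hs (hD.trans (Nat.add_le_add_right
      (finrank_Wspace_le ω a hli hW hmin hn m).2 s))
  obtain ⟨M, hM, hM'⟩ := (hA.and
    (Filter.eventually_ge_atTop (Finset.univ.sup a))).exists
  have h2 := finrank_Wspace ω a hli hW hmin hn M
    (fun i => (Finset.le_sup (Finset.mem_univ i)).trans hM')
  omega

end Pool.Agent.H20.EG
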